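import Pool.Agent.N974.GN.Dual
import Pool.Agent.N975.S21.Lv
import Pool.Agent.N974.P15.Glue
import Pool.Agent.N975.PG.Gn
import Pool.Agent.N975.NV

/-!
# The twists of the levels `21` and `15` by positive discriminants: nonvanishing from the character
# sums of the crossing numbers of an even weight
-/

set_option autoImplicit false

open Finset UpperHalfPlane MatrixGroups CongruenceSubgroup

namespace Pool.Agent.N974.GN

open Pool.Agent.N975.Sym (ev)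
open Pool.Agent.N969.P15 (un)
open Pool.Agent.N974.Gen
open Pool.Agent.Y687 (RankBSD rankBSD cnt)
open Pool.Agent.W97.MT (ap)
open Pool.Agent.N974.MF (E15)

noncomputable section

/-! ### the sums of the characters -/

/-- the sum of a nontrivial character over a period vanishes -/
theorem sum_zero {A : ℕ} (hA : 0 < A) {χ : ℤ → ℤ} (per : ∀ x y : ℤ, (A : ℤ) ∣ x - y → χ x = χ y)
    (mul : ∀ x y : ℤ, χ (x * y) = χ x * χ y) {t : ℕ} (ht : Nat.Coprime t A) (h1 : χ t = -1) :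
    ∑ C ∈ range A, χ C = 0 := by
  have hsum : ∑ C ∈ range A, χ C = χ t * ∑ C ∈ range A, χ C := by
    rw [Finset.mul_sum]
    symm
    refine Finset.sum_bij (fun j _ => t * j % A) ?_ ?_ ?_ ?_
    · intro j _
      exact Finset.mem_range.2 (Nat.mod_lt _ hA)
    · intro i hi j hj h
      rw [Finset.mem_range] at hi hj
      have h2 : t * i ≡ t * j [MOD A] := h
      have h3 := Nat.ModEq.cancel_left_of_coprime (by rw [Nat.gcd_comm]; exact ht) h2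
      rwa [Nat.ModEq, Nat.mod_eq_of_lt hi, Nat.mod_eq_of_lt hj] at h3
    · intro r hr
      rw [Finset.mem_range] at hr
      obtain ⟨j, hj⟩ := Nat.exists_mul_mod_eq_of_coprime r ht hA.ne'
      refine ⟨j % A, Finset.mem_range.2 (Nat.mod_lt _ hA), ?_⟩
      rw [Nat.mul_mod, Nat.mod_mod, ← Nat.mul_mod, hj.2, Nat.mod_eq_of_lt hr]
    · intro j _
      rw [← mul]
      refine per _ _ ?_
      push_cast
      exact (Int.ModEq.dvd (Int.mod_modEq _ _))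
  rw [h1] at hsum
  linarith

theorem sum_un_jac {A : ℕ} (hA : Squarefree A) (hodd : A % 2 = 1) (h1 : 1 < A) :
    ∑ u ∈ un A, jacobiSym u A = 0 := by
  rw [← Pool.Agent.N975.PG.sum_jac hA hodd h1]
  refine Finset.sum_subset (Finset.filter_subset _ _) fun j hj hj2 => ?_
  have h3 : ¬ Nat.Coprime j A := fun h => hj2 (Finset.mem_filter.2 ⟨hj, h⟩)
  have : NeZero A := ⟨by omega⟩
  rw [jacobiSym.eq_zero_iff_not_coprime, Int.gcd_natCast_natCast]
  exact h3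

theorem sum_un_chE {n : ℕ} (h : ChP.Ev n) : ∑ u ∈ un n, ChP.chE n u = 0 := by
  have h2n : 2 ∣ n := by
    obtain ⟨m, rfl, -⟩ := h
    exact ⟨2 * m, by ring⟩
  obtain ⟨t, -, ht⟩ := ChP.exists_neg h Nat.prime_two h2n
  have htc : Nat.Coprime t n := by
    by_contra h1
    rw [ChP.chE_zero (ChP.ev_mod h) h1] at ht
    norm_num at ht
  rw [← sum_zero (ChP.ev_pos h) (fun _ _ => ChP.chE_mod (ChP.ev_mod h)) (ChP.chE_mul n) htc ht]
  refine Finset.sum_subset (Finset.filter_subset _ _) fun j hj hj2 => ?_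
  exact ChP.chE_zero (ChP.ev_mod h) fun h => hj2 (Finset.mem_filter.2 ⟨hj, h⟩)

/-! ### the real symbol is not constant -/

section gen

variable {N : ℕ} [NeZero N] {f : CuspForm (Gamma0 N : Subgroup (GL (Fin 2) ℝ)) 2} {a : ℕ → ℤ}

theorem f_ne (h : Eigen f a) : f ≠ 0 := by
  rintro rfl
  have h1 := h.one
  have h2 : cf (0 : CuspForm (Gamma0 N : Subgroup (GL (Fin 2) ℝ)) 2) 1 = 0 := by
    unfold cf
    have h3 : ((0 : CuspForm (Gamma0 N : Subgroup (GL (Fin 2) ℝ)) 2) : UpperHalfPlane → ℂ) = 0 :=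
      rfl
    rw [h3, UpperHalfPlane.qExpansion_zero]
    simp
  exact absurd (h1.symm.trans h2) one_ne_zero

theorem re_ne (h : Eigen f a) (hN : 1 < N) (hsq : Squarefree N) (hodd : N % 2 = 1) (h2 : a 2 ≠ 3)
    (hz : (II f (1 / 2)).re - (II f 0).re = 0 → ∀ a b c d : ℤ, a * d - (N : ℤ) * (b * c) = 1 →
      (II f ((b : ℚ) / d)).re = (II f 0).re) :
    (II f (1 / 2)).re - (II f 0).re ≠ 0 := by
  intro h0
  obtain ⟨r, hr⟩ := Pool.Agent.N975.NV.exists_re_ne f (f_ne h) one_ne_zero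
  rw [one_mul] at hr
  exact hr (all_zero (symbP h hN) hN hsq hodd h2 (hz h0) r)

end gen

/-! ### level 21 -/

section L21

variable {f : CuspForm (Gamma0 21 : Subgroup (GL (Fin 2) ℝ)) 2}

theorem sq21 : Squarefree 21 := by
  rw [show (21 : ℕ) = 3 * 7 by norm_num, Nat.squarefree_mul (by norm_num)]
  exact ⟨Nat.prime_three.squarefree, (by norm_num : Nat.Prime 7).squarefree⟩

theorem re_ne21 (h : Eigen f (fun p => ap E21 p)) : (II f (1 / 2)).re - (II f 0).re ≠ 0 := by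
  refine re_ne h (by norm_num) sq21 (by norm_num) (by rw [ap21_2]; norm_num) ?_
  intro h0 a b c d hd
  have P := symbP h (by norm_num : 1 < 21)
  have K : EvenHom 21 (fun _ b _ d : ℤ => (II f ((b : ℚ) / d)).re - (II f 0).re) :=
    evenS P (by norm_num)
  exact sub_eq_zero.1 (K.zero21 (by push_cast; exact h0) a b c d (by exact_mod_cast hd))

/-- **the character sum of the real symbol of level `21` does not vanish if the character sum of the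
crossing numbers of an even weight does not vanish** -/
theorem ne_re21 (h : Eigen f (fun p => ap E21 p)) {D : ℤ} {k : ℤ × ℤ × ℤ → ℤ} (H : Wt 21 D k)
    (Pk : Par k (-1)) {A m₀ : ℕ} {x₀ : ℤ} (hA : 0 < A) (hm₀ : 0 < m₀)
    (hx₀ : IsCoprime x₀ (m₀ : ℤ)) (hg : Nat.gcd m₀ 21 = Nat.gcd A 21) (hz : NZ k x₀ m₀)
    {χ : ℤ → ℤ} (hχ : ∑ u ∈ un A, χ u = 0) (hne : ∑ u ∈ un A, χ u * X k u A ≠ 0) :
    ∑ u ∈ un A, (χ u : ℝ) * (II f ((u : ℚ) / A)).re ≠ 0 := by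
  have P := symbP h (by norm_num : 1 < 21)
  refine ne_class (N := 21) P sq21 (k := k) (D := D) H (re_ne21 h)
    (μ := ((X k 11 (21 * 1) : ℤ) : ℝ)) ?_ hA hm₀ hx₀ hg hz hχ hne
  intro a b c d hd
  have hd' : a * d - 21 * (b * c) = 1 := by exact_mod_cast hd
  exact cmp21 P (EvenHom.cast (evenHom H Pk)) hd'

/-- nonvanishing, odd positive discriminants -/
theorem lv21_O (h : Eigen f (fun p => ap E21 p)) {A : ℕ} (hsq : Squarefree A) (h4 : A % 4 = 1)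
    (h1 : 1 < A) (hne : ∑ u ∈ un A, (jacobiSym u A : ℝ) * (II f ((u : ℚ) / A)).re ≠ 0) :
    ∃ F : ℂ → ℂ, Differentiable ℂ F ∧
      (∀ s : ℂ, (3 : ℝ) / 2 < s.re →
        HasProd (fun p : {p : ℕ // p.Prime ∧
            ¬ ((p : ℤ) ∣ 2 * (4 * (-5211 * (A : ℤ) ^ 2) ^ 3 + 27 * (-31050 * (A : ℤ) ^ 3) ^ 2))} =>
          Pool.Agent.Y687.fac (-5211 * (A : ℤ) ^ 2) (-31050 * (A : ℤ) ^ 3) s p) (F s)) ∧
      F 1 ≠ 0 := by
  have hab : ((A : ℤ)).natAbs = A := Int.natAbs_natCast A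
  refine neO_real h (-5211) (-31050) disc21 bad21 (fun _ => good21) (A : ℤ)
    (Int.squarefree_natCast.2 hsq) (by rw [hab]; exact h1) (by omega) (Or.inl ?_)
  rw [hab]
  exact hne

/-- nonvanishing, even positive discriminants -/
theorem lv21_E (h : Eigen f (fun p => ap E21 p)) {A : ℕ} (hA : ChP.Ev A)
    (hne : ∑ u ∈ un A, (ChP.chE A u : ℝ) * (II f ((u : ℚ) / A)).re ≠ 0) :
    ∃ F : ℂ → ℂ, Differentiable ℂ F ∧
      (∀ s : ℂ, (3 : ℝ) / 2 < s.re →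
        HasProd (fun p : {p : ℕ // p.Prime ∧
            ¬ ((p : ℤ) ∣ 2 * (4 * (-5211 * ((A / 4 : ℕ) : ℤ) ^ 2) ^ 3 +
              27 * (-31050 * ((A / 4 : ℕ) : ℤ) ^ 3) ^ 2))} =>
          Pool.Agent.Y687.fac (-5211 * ((A / 4 : ℕ) : ℤ) ^ 2) (-31050 * ((A / 4 : ℕ) : ℤ) ^ 3) s p)
          (F s)) ∧
      F 1 ≠ 0 :=
  neP_real h (-5211) (-31050) disc21 bad21 (fun _ => good21) hA (Or.inl hne)

/-- **the rank form of the conjecture for the twist of level `21` by an odd discriminant `A > 0`,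
from a nonvanishing character sum of the crossing numbers of an even weight** -/
theorem bsd21_O {A : ℕ} (hsq : Squarefree A) (h4 : A % 4 = 1) (h1 : 1 < A) {D : ℤ}
    {k : ℤ × ℤ × ℤ → ℤ} (H : Wt 21 D k) (Pk : Par k (-1)) {m₀ : ℕ} {x₀ : ℤ} (hm₀ : 0 < m₀)
    (hx₀ : IsCoprime x₀ (m₀ : ℤ)) (hg : Nat.gcd m₀ 21 = Nat.gcd A 21) (hz : NZ k x₀ m₀)
    (hne : ∑ u ∈ un A, jacobiSym u A * X k u A ≠ 0)
    (hfin : Pool.Agent.N975.S21.FinPts (A : ℤ)) :
    RankBSD (-5211 * (A : ℤ) ^ 2) (-31050 * (A : ℤ) ^ 3) := by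
  have h := Pool.Agent.N402.MF21.eigen21
  have h2 := ne_re21 h H Pk (A := A) (by omega) hm₀ hx₀ hg hz (χ := fun u => jacobiSym u A)
    (sum_un_jac hsq (by omega) h1) hne
  obtain ⟨F, hF, hFp, hF1⟩ := lv21_O h hsq h4 h1 h2
  exact rankBSD hF hFp hF1 hfin

/-- the rank form of the conjecture, even discriminants `A > 0` -/
theorem bsd21_E {A : ℕ} (hA : ChP.Ev A) {D : ℤ}
    {k : ℤ × ℤ × ℤ → ℤ} (H : Wt 21 D k) (Pk : Par k (-1)) {m₀ : ℕ} {x₀ : ℤ} (hm₀ : 0 < m₀)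
    (hx₀ : IsCoprime x₀ (m₀ : ℤ)) (hg : Nat.gcd m₀ 21 = Nat.gcd A 21) (hz : NZ k x₀ m₀)
    (hne : ∑ u ∈ un A, ChP.chE A u * X k u A ≠ 0)
    (hfin : Pool.Agent.N975.S21.FinPts ((A / 4 : ℕ) : ℤ)) :
    RankBSD (-5211 * ((A / 4 : ℕ) : ℤ) ^ 2) (-31050 * ((A / 4 : ℕ) : ℤ) ^ 3) := by
  have h := Pool.Agent.N402.MF21.eigen21
  have h2 := ne_re21 h H Pk (A := A) (ChP.ev_pos hA) hm₀ hx₀ hg hz (χ := fun u => ChP.chE A u)
    (sum_un_chE hA) hne
  obtain ⟨F, hF, hFp, hF1⟩ := lv21_E h hA h2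
  exact rankBSD hF hFp hF1 hfin

end L21

/-! ### level 15 -/

section L15

open Pool.Agent.TH940 Pool.Agent.N974.MF

/-- the form of level `15` is an eigenform -/
theorem eigen15 : Eigen f15 (fun p => ap E15 p) := by
  have hlat := Pool.Agent.N974.P15.hlat
  obtain ⟨-, h1, h2, h3⟩ := Inst.facts hlat
  refine ⟨h1, h3, ?_, ?_⟩
  · intro p hp hp15
    have h4 := Inst.good hlat p hp (fun h => hp15 (h ▸ by norm_num))
    rw [h2 p hp, Complex.norm_intCast] at h4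
    exact h4
  · intro p hp hp15
    have h4 := Inst.bad hlat p hp hp15
    rw [h2 p hp, Complex.norm_intCast] at h4
    exact h4

theorem sq15 : Squarefree 15 := by
  rw [show (15 : ℕ) = 3 * 5 by norm_num, Nat.squarefree_mul (by norm_num)]
  exact ⟨Nat.prime_three.squarefree, (by norm_num : Nat.Prime 5).squarefree⟩

theorem disc15 : 4 * (-12987 : ℤ) ^ 3 + 27 * (-263466) ^ 2 ≠ 0 := by norm_num

theorem bad15 (p : ℕ) (hp : p.Prime) (h : p ∣ 15) :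
    (p : ℤ) ∣ 2 * (4 * (-12987 : ℤ) ^ 3 + 27 * (-263466) ^ 2) := by
  have h1 : p ∣ 3 * 5 := by simpa using h
  rcases (Nat.Prime.dvd_mul hp).1 h1 with h2 | h2
  · have := (Nat.prime_dvd_prime_iff_eq hp Nat.prime_three).1 h2
    subst this
    norm_num
  · have := (Nat.prime_dvd_prime_iff_eq hp (by norm_num : Nat.Prime 5)).1 h2
    subst this
    norm_num

theorem good15 {p : ℕ} (hpp : p.Prime)
    (h : ¬ (p : ℤ) ∣ 2 * (4 * (-12987 : ℤ) ^ 3 + 27 * (-263466) ^ 2)) :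
    (p : ℤ) - cnt (-12987) (-263466) p = ap E15 p := by
  refine cnt_E15 p hpp ?_ ?_
  · rintro rfl
    exact h (dvd_mul_right _ _)
  · rintro rfl
    exact h (by norm_num)

variable {f : CuspForm (Gamma0 15 : Subgroup (GL (Fin 2) ℝ)) 2}

theorem re_ne15 (h : Eigen f (fun p => ap E15 p)) : (II f (1 / 2)).re - (II f 0).re ≠ 0 := by
  refine re_ne h (by norm_num) sq15 (by norm_num) (by rw [ap2]; norm_num) ?_
  intro h0 a b c d hd
  have P := symbP h (by norm_num : 1 < 15)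
  have K : EvenHom 15 (fun _ b _ d : ℤ => (II f ((b : ℚ) / d)).re - (II f 0).re) :=
    evenS P (by norm_num)
  exact sub_eq_zero.1 (K.zero15 (by push_cast; exact h0) a b c d (by exact_mod_cast hd))

theorem ne_re15 (h : Eigen f (fun p => ap E15 p)) {D : ℤ} {k : ℤ × ℤ × ℤ → ℤ} (H : Wt 15 D k)
    (Pk : Par k (-1)) {A m₀ : ℕ} {x₀ : ℤ} (hA : 0 < A) (hm₀ : 0 < m₀)
    (hx₀ : IsCoprime x₀ (m₀ : ℤ)) (hg : Nat.gcd m₀ 15 = Nat.gcd A 15) (hz : NZ k x₀ m₀)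
    {χ : ℤ → ℤ} (hχ : ∑ u ∈ un A, χ u = 0) (hne : ∑ u ∈ un A, χ u * X k u A ≠ 0) :
    ∑ u ∈ un A, (χ u : ℝ) * (II f ((u : ℚ) / A)).re ≠ 0 := by
  have P := symbP h (by norm_num : 1 < 15)
  refine ne_class (N := 15) P sq15 (k := k) (D := D) H (re_ne15 h)
    (μ := ((X k 8 (15 * 1) : ℤ) : ℝ)) ?_ hA hm₀ hx₀ hg hz hχ hne
  intro a b c d hd
  have hd' : a * d - 15 * (b * c) = 1 := by exact_mod_cast hd
  exact cmp15 P (EvenHom.cast (evenHom H Pk)) hd'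

theorem lv15_O (h : Eigen f (fun p => ap E15 p)) {A : ℕ} (hsq : Squarefree A) (h4 : A % 4 = 1)
    (h1 : 1 < A) (hne : ∑ u ∈ un A, (jacobiSym u A : ℝ) * (II f ((u : ℚ) / A)).re ≠ 0) :
    ∃ F : ℂ → ℂ, Differentiable ℂ F ∧
      (∀ s : ℂ, (3 : ℝ) / 2 < s.re →
        HasProd (fun p : {p : ℕ // p.Prime ∧
            ¬ ((p : ℤ) ∣ 2 * (4 * (-12987 * (A : ℤ) ^ 2) ^ 3 +
              27 * (-263466 * (A : ℤ) ^ 3) ^ 2))} =>
          Pool.Agent.Y687.fac (-12987 * (A : ℤ) ^ 2) (-263466 * (A : ℤ) ^ 3) s p) (F s)) ∧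
      F 1 ≠ 0 := by
  have hab : ((A : ℤ)).natAbs = A := Int.natAbs_natCast A
  refine neO_real h (-12987) (-263466) disc15 bad15 (fun _ => good15) (A : ℤ)
    (Int.squarefree_natCast.2 hsq) (by rw [hab]; exact h1) (by omega) (Or.inl ?_)
  rw [hab]
  exact hne

theorem lv15_E (h : Eigen f (fun p => ap E15 p)) {A : ℕ} (hA : ChP.Ev A)
    (hne : ∑ u ∈ un A, (ChP.chE A u : ℝ) * (II f ((u : ℚ) / A)).re ≠ 0) :
    ∃ F : ℂ → ℂ, Differentiable ℂ F ∧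
      (∀ s : ℂ, (3 : ℝ) / 2 < s.re →
        HasProd (fun p : {p : ℕ // p.Prime ∧
            ¬ ((p : ℤ) ∣ 2 * (4 * (-12987 * ((A / 4 : ℕ) : ℤ) ^ 2) ^ 3 +
              27 * (-263466 * ((A / 4 : ℕ) : ℤ) ^ 3) ^ 2))} =>
          Pool.Agent.Y687.fac (-12987 * ((A / 4 : ℕ) : ℤ) ^ 2) (-263466 * ((A / 4 : ℕ) : ℤ) ^ 3) s p)
          (F s)) ∧
      F 1 ≠ 0 :=
  neP_real h (-12987) (-263466) disc15 bad15 (fun _ => good15) hA (Or.inl hne)

/-- the points of the twist by `D` are finitely many -/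
def Fin15 (D : ℤ) : Prop :=
  {q : ℚ × ℚ | q.2 ^ 2 = q.1 ^ 3 + ((-12987 * D ^ 2 : ℤ) : ℚ) * q.1 +
    ((-263466 * D ^ 3 : ℤ) : ℚ)}.Finite

/-- **the rank form of the conjecture for the twist of level `15` by an odd discriminant `A > 0`,
from a nonvanishing character sum of the crossing numbers of an even weight** -/
theorem bsd15_O {A : ℕ} (hsq : Squarefree A) (h4 : A % 4 = 1) (h1 : 1 < A) {D : ℤ}
    {k : ℤ × ℤ × ℤ → ℤ} (H : Wt 15 D k) (Pk : Par k (-1)) {m₀ : ℕ} {x₀ : ℤ} (hm₀ : 0 < m₀)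
    (hx₀ : IsCoprime x₀ (m₀ : ℤ)) (hg : Nat.gcd m₀ 15 = Nat.gcd A 15) (hz : NZ k x₀ m₀)
    (hne : ∑ u ∈ un A, jacobiSym u A * X k u A ≠ 0) (hfin : Fin15 (A : ℤ)) :
    RankBSD (-12987 * (A : ℤ) ^ 2) (-263466 * (A : ℤ) ^ 3) := by
  have h2 := ne_re15 eigen15 H Pk (A := A) (by omega) hm₀ hx₀ hg hz (χ := fun u => jacobiSym u A)
    (sum_un_jac hsq (by omega) h1) hne
  obtain ⟨F, hF, hFp, hF1⟩ := lv15_O eigen15 hsq h4 h1 h2
  exact rankBSD hF hFp hF1 hfin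

/-- the rank form of the conjecture, even discriminants `A > 0` -/
theorem bsd15_E {A : ℕ} (hA : ChP.Ev A) {D : ℤ}
    {k : ℤ × ℤ × ℤ → ℤ} (H : Wt 15 D k) (Pk : Par k (-1)) {m₀ : ℕ} {x₀ : ℤ} (hm₀ : 0 < m₀)
    (hx₀ : IsCoprime x₀ (m₀ : ℤ)) (hg : Nat.gcd m₀ 15 = Nat.gcd A 15) (hz : NZ k x₀ m₀)
    (hne : ∑ u ∈ un A, ChP.chE A u * X k u A ≠ 0) (hfin : Fin15 ((A / 4 : ℕ) : ℤ)) :
    RankBSD (-12987 * ((A / 4 : ℕ) : ℤ) ^ 2) (-263466 * ((A / 4 : ℕ) : ℤ) ^ 3) := by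
  have h2 := ne_re15 eigen15 H Pk (A := A) (ChP.ev_pos hA) hm₀ hx₀ hg hz
    (χ := fun u => ChP.chE A u) (sum_un_chE hA) hne
  obtain ⟨F, hF, hFp, hF1⟩ := lv15_E eigen15 hA h2
  exact rankBSD hF hFp hF1 hfin

end L15

end

end Pool.Agent.N974.GN
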