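import Pool.Agent.N974.GN.XF
import Pool.Agent.N974.Gen.LfinP
import Pool.Agent.N974.Gen.Class

/-!
# Even weights tested at the cusps `u / A`: comparison with the real symbol

Let `k` be an invariant weight of parity `-1` on the forms of discriminant `D`, level `N`, such that
no form of the support vanishes at infinity and at the cusps equivalent to `x₀ / m₀`.  Its crossing
numbers are an even symbol; for the levels `15` and `21` they are a multiple of the real symbol of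
the elliptic curve.  A nonvanishing character sum of the crossing numbers at the cusps `u / A`
therefore gives a nonvanishing character sum of the real symbol.
-/

set_option autoImplicit false

open Finset

namespace Pool.Agent.N974.GN

open Pool.Agent.N975.Sym (ev)
open Pool.Agent.N969.P15 (un)
open Pool.Agent.N974.Gen

noncomputable section

variable {N : ℕ} {s : ℚ → ℝ} {a : ℕ → ℤ}

theorem d_ne (hN : 1 < N) {A B C E : ℤ} (h : A * E - B * ((N : ℤ) * C) = 1) : E ≠ 0 := by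
  rintro rfl
  have h1 : (N : ℤ) ∣ 1 := ⟨-(B * C), by linear_combination -h⟩
  have h2 : N ∣ 1 := by exact_mod_cast h1
  have h3 := Nat.le_of_dvd one_pos h2
  omega

/-- the real symbol is an even homomorphism -/
theorem evenS (P : SymbP N s a) (hN : 1 < N) :
    EvenHom (N : ℤ) (fun _ b _ d : ℤ => s ((b : ℚ) / d) - s 0) where
  hom := by
    intro a b c d a' b' c' d' h h'
    have hd := d_ne hN (A := a) (B := b) (C := c) (E := d) (by linear_combination h)
    have hd' := d_ne hN (A := a') (B := b') (C := c') (E := d') (by linear_combination h')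
    have hD : (N : ℤ) * c * b' + d * d' ≠ 0 :=
      d_ne hN (A := a * a' + b * (N * c')) (B := a * b' + b * d') (C := c * a' + d * c')
        (by linear_combination h' + (a' * d' - N * (b' * c')) * h)
    have hdq : (d : ℚ) ≠ 0 := by exact_mod_cast hd
    have hdq' : (d' : ℚ) ≠ 0 := by exact_mod_cast hd'
    have hDq : (N : ℚ) * c * b' + d * d' ≠ 0 := by exact_mod_cast hD
    have h0 : (N : ℚ) * c * ((b' : ℚ) / d') + d ≠ 0 := by
      intro h1
      apply hDq
      field_simp at h1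
      linear_combination h1
    have h1 := P.aff (A := a) (B := b) (C := c) (D := d) (by linear_combination h)
      ((b' : ℚ) / d') h0
    have e1 : ((a : ℚ) * ((b' : ℚ) / d') + b) / ((N : ℚ) * c * ((b' : ℚ) / d') + d) =
        ((a * b' + b * d' : ℤ) : ℚ) / (((N : ℤ) * c * b' + d * d' : ℤ) : ℚ) := by
      push_cast
      rw [div_eq_div_iff h0 hDq]
      field_simp
    rw [e1] at h1
    rw [h1]
    ring
  neg := by
    intro a b c d _
    push_cast
    rw [neg_div_neg_eq]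
  even := by
    intro a b c d _
    push_cast
    rw [neg_div, P.neg]

/-- a difference of two even homomorphisms -/
theorem EvenHom.comb {M : ℤ} {φ ψ : ℤ → ℤ → ℤ → ℤ → ℝ} (H : EvenHom M φ) (G : EvenHom M ψ)
    (x y : ℝ) : EvenHom M (fun a b c d => x * φ a b c d - y * ψ a b c d) where
  hom := by
    intro a b c d a' b' c' d' h h'
    have h1 := H.hom h h'
    have h2 := G.hom h h'
    rw [h1, h2]
    ring
  neg := by
    intro a b c d h
    have h1 := H.neg h
    rw [h1, G.neg h]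
  even := by
    intro a b c d h
    have h1 := H.even h
    rw [h1, G.even h]

theorem EvenHom.cast {M : ℤ} {φ : ℤ → ℤ → ℤ → ℤ → ℤ} (H : EvenHom M φ) :
    EvenHom M (fun a b c d => ((φ a b c d : ℤ) : ℝ)) where
  hom := by
    intro a b c d a' b' c' d' h h'
    have h1 := H.hom h h'
    rw [h1]
    push_cast
    rfl
  neg := by
    intro a b c d h
    have h1 := H.neg h
    rw [h1]
  even := by
    intro a b c d h
    have h1 := H.even h
    rw [h1]

/-- comparison at level `21` -/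
theorem cmp21 (P : SymbP 21 s a) {Ψ : ℤ → ℤ → ℤ → ℤ → ℝ} (G : EvenHom 21 Ψ) {a b c d : ℤ}
    (h : a * d - 21 * (b * c) = 1) :
    (s (1 / 2) - s 0) * Ψ a b c d = Ψ 11 1 1 2 * (s ((b : ℚ) / d) - s 0) := by
  have K : EvenHom 21 (fun _ b _ d : ℤ => s ((b : ℚ) / d) - s 0) := evenS P (by norm_num)
  have E := EvenHom.comb G K (s (1 / 2) - s 0) (Ψ 11 1 1 2)
  have h1 := E.zero21 (by push_cast; ring) a b c d h
  exact sub_eq_zero.1 h1

/-- comparison at level `15` -/
theorem cmp15 (P : SymbP 15 s a) {Ψ : ℤ → ℤ → ℤ → ℤ → ℝ} (G : EvenHom 15 Ψ) {a b c d : ℤ}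
    (h : a * d - 15 * (b * c) = 1) :
    (s (1 / 2) - s 0) * Ψ a b c d = Ψ 8 1 1 2 * (s ((b : ℚ) / d) - s 0) := by
  have K : EvenHom 15 (fun _ b _ d : ℤ => s ((b : ℚ) / d) - s 0) := evenS P (by norm_num)
  have E := EvenHom.comb G K (s (1 / 2) - s 0) (Ψ 8 1 1 2)
  have h1 := E.zero15 (by push_cast; ring) a b c d h
  exact sub_eq_zero.1 h1

/-! ### the real symbol is not constant on the cusps equivalent to zero -/

theorem gcd_eq {m m' : ℕ} (hN : N % 2 = 1) (h : m ∣ 2 * m') (h' : m' ∣ 2 * m) :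
    Nat.gcd m N = Nat.gcd m' N := by
  have key : ∀ {x y : ℕ}, x ∣ 2 * y → Nat.gcd x N ∣ Nat.gcd y N := by
    intro x y hxy
    have h1 : Nat.gcd x N ∣ N := Nat.gcd_dvd_right _ _
    have h2 : Nat.Coprime (Nat.gcd x N) 2 := by
      have h3 : Nat.Coprime N 2 := Nat.coprime_two_right.2 (Nat.odd_iff.2 hN)
      exact Nat.Coprime.coprime_dvd_left h1 h3
    exact Nat.dvd_gcd (h2.dvd_of_dvd_mul_left ((Nat.gcd_dvd_left _ _).trans hxy)) h1
  exact Nat.dvd_antisymm (key h) (key h')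

theorem den_div {x : ℚ} {p : ℤ} {q : ℕ} (h : x = (p : ℚ) / q) : x.den ∣ q := by
  have h1 := Rat.den_dvd p (q : ℤ)
  rw [Rat.divInt_eq_div, Int.cast_natCast, ← h] at h1
  exact_mod_cast h1

/-- the symbol depends only on the class of the cusp if it is constant on the class of zero -/
theorem class_const (P : SymbP N s a) (hN : 1 < N) (hsq : Squarefree N) [NeZero N]
    (key : ∀ a b c d : ℤ, a * d - (N : ℤ) * (b * c) = 1 → s ((b : ℚ) / d) = s 0) {r r' : ℚ}
    (hg : Nat.gcd r.den N = Nat.gcd r'.den N) : s r' = s r := by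
  obtain ⟨a, b, c, d, hdet, h0, he⟩ := exists_class hsq hg
  have h1 := P.aff hdet r h0
  rw [he, key a b c d (by linear_combination hdet)] at h1
  rw [h1]
  ring

theorem all_zero (P : SymbP N s a) (hN : 1 < N) (hsq : Squarefree N) (hodd : N % 2 = 1) [NeZero N]
    (h2 : a 2 ≠ 3)
    (key : ∀ a b c d : ℤ, a * d - (N : ℤ) * (b * c) = 1 → s ((b : ℚ) / d) = s 0) (r : ℚ) :
    s r = 0 := by
  have hd0 : (r.den : ℚ) ≠ 0 := by exact_mod_cast r.den_ne_zero
  have hr : (r.num : ℚ) / r.den = r := Rat.num_div_den r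
  have g1 : s ((2 : ℕ) * r) = s r := by
    refine class_const P hN hsq key (gcd_eq hodd ?_ ?_)
    · refine den_div (p := ((2 : ℕ) * r : ℚ).num) ?_
      have h3 := Rat.num_div_den ((2 : ℕ) * r : ℚ)
      push_cast at h3 ⊢
      rw [mul_comm (2 : ℚ) (((2 * r : ℚ).den : ℕ) : ℚ), ← div_div, h3]
      ring
    · refine (den_div (p := 2 * r.num) ?_).trans (Dvd.intro_left 2 rfl)
      push_cast
      rw [mul_div_assoc, hr]
  have g2 : ∀ b : ℕ, s ((r + b) / (2 : ℕ)) = s r := by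
    intro b
    refine class_const P hN hsq key (gcd_eq hodd ?_ ?_)
    · obtain ⟨y, hy⟩ : ∃ y : ℚ, y = (r + b) / (2 : ℕ) := ⟨_, rfl⟩
      rw [← hy]
      have hy0 : (y.den : ℚ) ≠ 0 := by exact_mod_cast y.den_ne_zero
      have hy1 : (y.num : ℚ) / y.den = y := Rat.num_div_den y
      refine (den_div (p := 2 * y.num - b * y.den) ?_).trans (Dvd.intro_left 2 rfl)
      have h3 : r = 2 * y - b := by
        rw [hy]
        push_cast
        ring
      push_cast
      rw [sub_div, mul_div_assoc, hy1, mul_div_assoc, div_self hy0, mul_one]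
      exact h3
    · refine den_div (p := r.num + b * r.den) ?_
      have e : ((r.num : ℚ) + b * r.den) / r.den = r + b := by
        rw [add_div, hr, mul_div_assoc, div_self hd0, mul_one]
      push_cast
      rw [mul_comm (2 : ℚ), ← div_div, e]
  have hn2 : ¬ 2 ∣ N := by omega
  have hh := P.hecke 2 Nat.prime_two hn2 r
  rw [Finset.sum_range_succ, Finset.sum_range_succ, Finset.sum_range_zero, g1, g2, g2] at hh
  have h3 : ((a 2 : ℝ) - 3) * s r = 0 := by linear_combination hh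
  rcases mul_eq_zero.1 h3 with h5 | h5
  · exfalso
    apply h2
    have : (a 2 : ℝ) = 3 := by linarith
    exact_mod_cast this
  · exact h5

/-! ### the cusps `u / A` -/

/-- two primitive vectors on the same line -/
theorem pair_eq {x y u v : ℤ} (h1 : IsCoprime x y) (h2 : IsCoprime u v) (h : x * v = u * y)
    (hy : y ≠ 0) : (x = u ∧ y = v) ∨ (x = -u ∧ y = -v) := by
  have d1 : y ∣ v := h1.symm.dvd_of_dvd_mul_left ⟨u, by linear_combination h⟩
  have d2 : v ∣ y := h2.symm.dvd_of_dvd_mul_left ⟨x, by linear_combination -h⟩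
  rcases Int.natAbs_eq_natAbs_iff.1 (Nat.dvd_antisymm (Int.natAbs_dvd_natAbs.2 d1)
    (Int.natAbs_dvd_natAbs.2 d2)) with h3 | h3
  · left
    refine ⟨?_, h3⟩
    subst h3
    exact mul_right_cancel₀ hy h
  · right
    refine ⟨?_, h3⟩
    subst h3
    have hv : v ≠ 0 := fun h0 => hy (by rw [h0, neg_zero])
    have : x * v = -u * v := by linear_combination h
    exact mul_right_cancel₀ hv this

variable {D : ℤ} {k : ℤ × ℤ × ℤ → ℤ} {κ μ : ℝ}

/-- the crossing numbers at the cusps of a class -/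
theorem val_class [NeZero N] (P : SymbP N s a) (hsq : Squarefree N) (H : Wt (N : ℤ) D k)
    (hcmp : ∀ a b c d : ℤ, a * d - (N : ℤ) * (b * c) = 1 →
      κ * (X k a (N * c) : ℝ) = μ * (s ((b : ℚ) / d) - s 0)) {A m₀ : ℕ} {x₀ : ℤ} (hA : 0 < A)
    (hm₀ : 0 < m₀) (hx₀ : IsCoprime x₀ (m₀ : ℤ)) (hg : Nat.gcd m₀ N = Nat.gcd A N)
    (hz : NZ k x₀ m₀) {u : ℤ} (hu : IsCoprime u (A : ℤ)) :
    κ * (X k u A : ℝ) = μ * s ((u : ℚ) / A) + (κ * (X k x₀ m₀ : ℝ) - μ * s ((x₀ : ℚ) / m₀)) := by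
  have hAq : (A : ℚ) ≠ 0 := by exact_mod_cast hA.ne'
  have hmq : (m₀ : ℚ) ≠ 0 := by exact_mod_cast hm₀.ne'
  have den_of : ∀ {x : ℤ} {m : ℕ}, 0 < m → IsCoprime x (m : ℤ) → ((x : ℚ) / m).den = m := by
    intro x m hm hx
    have h1 := Rat.den_div_eq_of_coprime (a := x) (b := (m : ℤ)) (by exact_mod_cast hm)
      (by rw [Int.natAbs_natCast]; exact Int.isCoprime_iff_nat_coprime.1 hx)
    push_cast at h1
    exact_mod_cast h1
  have hg' : Nat.gcd ((x₀ : ℚ) / m₀).den N = Nat.gcd ((u : ℚ) / A).den N := by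
    rw [den_of hm₀ hx₀, den_of hA hu, hg]
  obtain ⟨a, b, c, d, hdet, h0, he⟩ := exists_class hsq hg'
  have h1 := P.aff hdet ((x₀ : ℚ) / m₀) h0
  rw [he] at h1
  have h2 := hcmp a b c d (by linear_combination hdet)
  -- the vectors
  have hprim : IsCoprime (a * x₀ + b * m₀) ((N : ℤ) * c * x₀ + d * m₀) := by
    obtain ⟨p, q, hpq⟩ := hx₀
    refine ⟨p * d - q * (N * c), q * a - p * b, ?_⟩
    linear_combination hpq + (p * x₀ + q * m₀) * hdet
  have hne : (N : ℤ) * c * x₀ + d * m₀ ≠ 0 := by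
    intro h3
    apply h0
    have h4 : (N : ℚ) * c * x₀ + d * m₀ = 0 := by exact_mod_cast h3
    have e : (N : ℚ) * c * ((x₀ : ℚ) / m₀) + d = ((N : ℚ) * c * x₀ + d * m₀) / m₀ := by
      field_simp
    rw [e, h4, zero_div]
  have hline : (a * x₀ + b * m₀) * (A : ℤ) = u * ((N : ℤ) * c * x₀ + d * m₀) := by
    have hne' : (N : ℚ) * c * x₀ + d * m₀ ≠ 0 := by exact_mod_cast hne
    have e : (a * ((x₀ : ℚ) / m₀) + b) / ((N : ℚ) * c * ((x₀ : ℚ) / m₀) + d) =
        (a * x₀ + b * m₀) / ((N : ℚ) * c * x₀ + d * m₀) := by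
      rw [div_eq_div_iff h0 hne']
      field_simp
    rw [e, div_eq_div_iff hne' hAq] at he
    exact_mod_cast he
  have hX : X k u A = X k (a * x₀ + b * m₀) ((N : ℤ) * c * x₀ + d * m₀) := by
    rcases pair_eq hprim hu hline hne with ⟨e1, e2⟩ | ⟨e1, e2⟩
    · rw [e1, e2]
    · rw [e1, e2, X_neg_neg]
  rw [hX, X_coc0 H hdet hz, h1]
  push_cast
  linear_combination h2

/-- the character sums -/
theorem sum_class [NeZero N] (P : SymbP N s a) (hsq : Squarefree N) (H : Wt (N : ℤ) D k)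
    (hcmp : ∀ a b c d : ℤ, a * d - (N : ℤ) * (b * c) = 1 →
      κ * (X k a (N * c) : ℝ) = μ * (s ((b : ℚ) / d) - s 0)) {A m₀ : ℕ} {x₀ : ℤ} (hA : 0 < A)
    (hm₀ : 0 < m₀) (hx₀ : IsCoprime x₀ (m₀ : ℤ)) (hg : Nat.gcd m₀ N = Nat.gcd A N)
    (hz : NZ k x₀ m₀) {χ : ℤ → ℤ} (hχ : ∑ u ∈ un A, χ u = 0) :
    κ * ((∑ u ∈ un A, χ u * X k u A : ℤ) : ℝ) =
      μ * ∑ u ∈ un A, (χ u : ℝ) * s ((u : ℚ) / A) := by
  have h1 : ∀ u ∈ un A, κ * ((χ u : ℝ) * (X k u A : ℝ)) =
      μ * ((χ u : ℝ) * s ((u : ℚ) / A)) +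
        (χ u : ℝ) * (κ * (X k x₀ m₀ : ℝ) - μ * s ((x₀ : ℚ) / m₀)) := by
    intro u hu
    have hu' : IsCoprime ((u : ℕ) : ℤ) (A : ℤ) := by
      have := (Finset.mem_filter.1 hu).2
      exact_mod_cast this.isCoprime
    have h2 := val_class P hsq H hcmp hA hm₀ hx₀ hg hz hu'
    push_cast at h2 ⊢
    linear_combination (χ u : ℝ) * h2
  push_cast
  rw [Finset.mul_sum, Finset.sum_congr rfl h1, Finset.sum_add_distrib, ← Finset.mul_sum,
    ← Finset.sum_mul]
  have h3 : ∑ u ∈ un A, (χ u : ℝ) = 0 := by exact_mod_cast hχ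
  rw [h3, zero_mul, add_zero]

/-- **nonvanishing** -/
theorem ne_class [NeZero N] (P : SymbP N s a) (hsq : Squarefree N) (H : Wt (N : ℤ) D k)
    (hκ : κ ≠ 0) (hcmp : ∀ a b c d : ℤ, a * d - (N : ℤ) * (b * c) = 1 →
      κ * (X k a (N * c) : ℝ) = μ * (s ((b : ℚ) / d) - s 0)) {A m₀ : ℕ} {x₀ : ℤ} (hA : 0 < A)
    (hm₀ : 0 < m₀) (hx₀ : IsCoprime x₀ (m₀ : ℤ)) (hg : Nat.gcd m₀ N = Nat.gcd A N)
    (hz : NZ k x₀ m₀) {χ : ℤ → ℤ} (hχ : ∑ u ∈ un A, χ u = 0)
    (hne : ∑ u ∈ un A, χ u * X k u A ≠ 0) :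
    ∑ u ∈ un A, (χ u : ℝ) * s ((u : ℚ) / A) ≠ 0 := by
  intro h0
  have h1 := sum_class P hsq H hcmp hA hm₀ hx₀ hg hz hχ
  rw [h0, mul_zero] at h1
  rcases mul_eq_zero.1 h1 with h2 | h2
  · exact hκ h2
  · exact hne (by exact_mod_cast h2)

end

end Pool.Agent.N974.GN
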