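import Pool.Agent.N974.GN.DualW

/-!
# The rank form of the conjecture for the twists by `A > 0` from the dual crossing numbers
-/

set_option autoImplicit false

open Finset

namespace Pool.Agent.N974.GN

open Pool.Agent.N969.P15 (un)
open Pool.Agent.N974.Gen
open Pool.Agent.Y687 (RankBSD)

noncomputable section

variable {p q l A : ℕ}

theorem wt_cast {D : ℤ} {k : ℤ × ℤ × ℤ → ℤ} {N : ℕ} (hN : p * q = N)
    (H : Wt ((p * q : ℕ) : ℤ) D k) : Wt (N : ℤ) D k := by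
  rw [← hN]
  exact H

/-- the greatest common divisor of `A` and the level, `p ∣ A`, `q ∤ A` -/
theorem gcd_r {N : ℕ} (hN : p * q = N) (hq : q.Prime) (hpA : p ∣ A)
    (hqA : ¬ q ∣ A) : Nat.gcd p N = Nat.gcd A N := by
  rw [← hN, Nat.gcd_eq_left (dvd_mul_right p q),
    Nat.Coprime.gcd_mul_right_cancel_right p ((Nat.Prime.coprime_iff_not_dvd hq).2 hqA),
    Nat.gcd_eq_right hpA]

theorem gcd_m {N : ℕ} (hN : p * q = N) (hp : p.Prime) (hq : q.Prime) (hpA : ¬ p ∣ A)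
    (hqA : ¬ q ∣ A) : Nat.gcd 1 N = Nat.gcd A N := by
  rw [Nat.gcd_one_left, ← hN]
  symm
  exact Nat.Coprime.mul_right ((Nat.Prime.coprime_iff_not_dvd hp).2 hpA).symm
    ((Nat.Prime.coprime_iff_not_dvd hq).2 hqA).symm

/-! ### level 21 -/

/-- level `21`, odd `A` prime to the level -/
theorem m21_O (hN : p * q = 21) (X : Aux p q l) (hsq : Squarefree A) (h4 : A % 4 = 1)
    (h1 : 1 < A) (hpA : ¬ p ∣ A) (hqA : ¬ q ∣ A)
    (hne : ∑ u ∈ un A, jacobiSym u A * Fm p q l u A ≠ 0)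
    (hfin : Pool.Agent.N975.S21.FinPts (A : ℤ)) :
    RankBSD (-5211 * (A : ℤ) ^ 2) (-31050 * (A : ℤ) ^ 3) := by
  refine bsd21_O hsq h4 h1 (wt_cast hN (wt_kM X)) (par_kM X) (m₀ := 1) (x₀ := 0) one_pos
    (by norm_num) (gcd_m hN X.pp X.pq hpA hqA) (nz_kM X) ?_ hfin
  exact sum_kM X _ (fun u => jacobiSym u A) A hne

/-- level `21`, even `A` prime to the level -/
theorem m21_E (hN : p * q = 21) (X : Aux p q l) (hA : ChP.Ev A) (hpA : ¬ p ∣ A) (hqA : ¬ q ∣ A)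
    (hne : ∑ u ∈ un A, ChP.chE A u * Fm p q l u A ≠ 0)
    (hfin : Pool.Agent.N975.S21.FinPts ((A / 4 : ℕ) : ℤ)) :
    RankBSD (-5211 * ((A / 4 : ℕ) : ℤ) ^ 2) (-31050 * ((A / 4 : ℕ) : ℤ) ^ 3) := by
  refine bsd21_E hA (wt_cast hN (wt_kM X)) (par_kM X) (m₀ := 1) (x₀ := 0) one_pos
    (by norm_num) (gcd_m hN X.pp X.pq hpA hqA) (nz_kM X) ?_ hfin
  exact sum_kM X _ (fun u => ChP.chE A u) A hne

/-- level `21`, odd `A`, `p ∣ A` -/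
theorem r21_O (hN : p * q = 21) (X : Aux p q l) (hsq : Squarefree A) (h4 : A % 4 = 1)
    (h1 : 1 < A) (hpA : p ∣ A) (hqA : ¬ q ∣ A)
    (hne : ∑ u ∈ un A, jacobiSym u A * Fr p q l u A ≠ 0)
    (hfin : Pool.Agent.N975.S21.FinPts (A : ℤ)) :
    RankBSD (-5211 * (A : ℤ) ^ 2) (-31050 * (A : ℤ) ^ 3) := by
  refine bsd21_O hsq h4 h1 (wt_cast hN (wt_kR X)) (par_kR X) (m₀ := p) (x₀ := 1) X.pp.pos
    isCoprime_one_left (gcd_r hN X.pq hpA hqA) nz_kR ?_ hfin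
  exact sum_kR X _ (fun u => jacobiSym u A) A hne

/-- level `21`, even `A`, `p ∣ A` -/
theorem r21_E (hN : p * q = 21) (X : Aux p q l) (hA : ChP.Ev A) (hpA : p ∣ A) (hqA : ¬ q ∣ A)
    (hne : ∑ u ∈ un A, ChP.chE A u * Fr p q l u A ≠ 0)
    (hfin : Pool.Agent.N975.S21.FinPts ((A / 4 : ℕ) : ℤ)) :
    RankBSD (-5211 * ((A / 4 : ℕ) : ℤ) ^ 2) (-31050 * ((A / 4 : ℕ) : ℤ) ^ 3) := by
  refine bsd21_E hA (wt_cast hN (wt_kR X)) (par_kR X) (m₀ := p) (x₀ := 1) X.pp.pos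
    isCoprime_one_left (gcd_r hN X.pq hpA hqA) nz_kR ?_ hfin
  exact sum_kR X _ (fun u => ChP.chE A u) A hne

/-! ### level 15 -/

/-- level `15`, odd `A` prime to the level -/
theorem m15_O (hN : p * q = 15) (X : Aux p q l) (hsq : Squarefree A) (h4 : A % 4 = 1)
    (h1 : 1 < A) (hpA : ¬ p ∣ A) (hqA : ¬ q ∣ A)
    (hne : ∑ u ∈ un A, jacobiSym u A * Fm p q l u A ≠ 0) (hfin : Fin15 (A : ℤ)) :
    RankBSD (-12987 * (A : ℤ) ^ 2) (-263466 * (A : ℤ) ^ 3) := by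
  refine bsd15_O hsq h4 h1 (wt_cast hN (wt_kM X)) (par_kM X) (m₀ := 1) (x₀ := 0) one_pos
    (by norm_num) (gcd_m hN X.pp X.pq hpA hqA) (nz_kM X) ?_ hfin
  exact sum_kM X _ (fun u => jacobiSym u A) A hne

/-- level `15`, even `A` prime to the level -/
theorem m15_E (hN : p * q = 15) (X : Aux p q l) (hA : ChP.Ev A) (hpA : ¬ p ∣ A) (hqA : ¬ q ∣ A)
    (hne : ∑ u ∈ un A, ChP.chE A u * Fm p q l u A ≠ 0) (hfin : Fin15 ((A / 4 : ℕ) : ℤ)) :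
    RankBSD (-12987 * ((A / 4 : ℕ) : ℤ) ^ 2) (-263466 * ((A / 4 : ℕ) : ℤ) ^ 3) := by
  refine bsd15_E hA (wt_cast hN (wt_kM X)) (par_kM X) (m₀ := 1) (x₀ := 0) one_pos
    (by norm_num) (gcd_m hN X.pp X.pq hpA hqA) (nz_kM X) ?_ hfin
  exact sum_kM X _ (fun u => ChP.chE A u) A hne

/-- level `15`, odd `A`, `p ∣ A` -/
theorem r15_O (hN : p * q = 15) (X : Aux p q l) (hsq : Squarefree A) (h4 : A % 4 = 1)
    (h1 : 1 < A) (hpA : p ∣ A) (hqA : ¬ q ∣ A)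
    (hne : ∑ u ∈ un A, jacobiSym u A * Fr p q l u A ≠ 0) (hfin : Fin15 (A : ℤ)) :
    RankBSD (-12987 * (A : ℤ) ^ 2) (-263466 * (A : ℤ) ^ 3) := by
  refine bsd15_O hsq h4 h1 (wt_cast hN (wt_kR X)) (par_kR X) (m₀ := p) (x₀ := 1) X.pp.pos
    isCoprime_one_left (gcd_r hN X.pq hpA hqA) nz_kR ?_ hfin
  exact sum_kR X _ (fun u => jacobiSym u A) A hne

/-- level `15`, even `A`, `p ∣ A` -/
theorem r15_E (hN : p * q = 15) (X : Aux p q l) (hA : ChP.Ev A) (hpA : p ∣ A) (hqA : ¬ q ∣ A)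
    (hne : ∑ u ∈ un A, ChP.chE A u * Fr p q l u A ≠ 0) (hfin : Fin15 ((A / 4 : ℕ) : ℤ)) :
    RankBSD (-12987 * ((A / 4 : ℕ) : ℤ) ^ 2) (-263466 * ((A / 4 : ℕ) : ℤ) ^ 3) := by
  refine bsd15_E hA (wt_cast hN (wt_kR X)) (par_kR X) (m₀ := p) (x₀ := 1) X.pp.pos
    isCoprime_one_left (gcd_r hN X.pq hpA hqA) nz_kR ?_ hfin
  exact sum_kR X _ (fun u => ChP.chE A u) A hne

end

end Pool.Agent.N974.GN
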