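import Pool.Agent.N974.GN.DualE
import Pool.Agent.N969.P17G.Defs

/-!
# The crossing numbers of the forms of discriminant `l²` tested at the cusps `u / A`

`l ≡ 3 mod 4` is squarefree, prime to the level `p q`.  The forms of discriminant `l²` are weighted
with the genus character of `l`:

* `Fm p q l`: level `p q`, mixed orientation, for `A` prime to `p q`;
* `Fr p q l`: `q` divides the first coefficient, `p` does not, for `p ∣ A`, `A` prime to `q`.
-/

set_option autoImplicit false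

open Finset

namespace Pool.Agent.N974.GN

open Pool.Agent.N975.Sym (ev act act_inv ev10)
open Pool.Agent.N969.P17G (gn gen)
open Pool.Agent.N969.P15 (un)
open Pool.Agent.N974.Gen
open Pool.Agent.Y687 (RankBSD)

noncomputable section

/-! ### the definitions -/

/-- the forms of discriminant `l²`, level `p q`, mixed orientation -/
def SM (p q l : ℕ) (f : ℤ × ℤ × ℤ) : Prop :=
  f.2.1 ^ 2 - 4 * f.1 * f.2.2 = (l : ℤ) ^ 2 ∧ ((p * q : ℕ) : ℤ) ∣ f.1 ∧
    (((p : ℤ) ∣ f.2.1 - l ∧ (q : ℤ) ∣ f.2.1 + l) ∨ ((p : ℤ) ∣ f.2.1 + l ∧ (q : ℤ) ∣ f.2.1 - l))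

/-- the forms of discriminant `l²` with `q ∣ a`, `p ∤ a` -/
def SR (p q l : ℕ) (f : ℤ × ℤ × ℤ) : Prop :=
  f.2.1 ^ 2 - 4 * f.1 * f.2.2 = (l : ℤ) ^ 2 ∧ (q : ℤ) ∣ f.1 ∧ ¬ (p : ℤ) ∣ f.1

open Classical in
/-- the number of the forms `SM` which separate `∞` and `x / M`, weighted with the genus
character -/
def Fm (p q l : ℕ) (x M : ℤ) : ℤ := ∑ᶠ f : ℤ × ℤ × ℤ,
  if SM p q l f ∧ 0 < f.1 ∧ f.1 * x ^ 2 + f.2.1 * x * M + f.2.2 * M ^ 2 < 0 then gn l f else 0

open Classical in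
/-- the number of the forms `SR` which separate `∞` and `x / M`, weighted with the genus
character -/
def Fr (p q l : ℕ) (x M : ℤ) : ℤ := ∑ᶠ f : ℤ × ℤ × ℤ,
  if SR p q l f ∧ 0 < f.1 ∧ f.1 * x ^ 2 + f.2.1 * x * M + f.2.2 * M ^ 2 < 0 then gn l f else 0

/-! ### crossing numbers as counts of the forms with positive leading coefficient -/

section pos

variable {N D : ℤ} {k : ℤ × ℤ × ℤ → ℤ}

theorem ev_neg (q : ℤ × ℤ × ℤ) (x M : ℤ) : ev (-q) x M = - ev q x M := by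
  unfold ev
  simp only [Prod.fst_neg, Prod.snd_neg]
  ring

/-- the part with positive leading coefficient -/
def gpos (k : ℤ × ℤ × ℤ → ℤ) (x m : ℤ) (q : ℤ × ℤ × ℤ) : ℤ :=
  if 0 < q.1 ∧ ev q x m < 0 then k q else 0

/-- the part with negative leading coefficient -/
def gneg (k : ℤ × ℤ × ℤ → ℤ) (x m : ℤ) (q : ℤ × ℤ × ℤ) : ℤ :=
  if 0 < q.1 ∧ ev q x m < 0 then k (-q) else 0

theorem U_split {x m : ℤ} (q : ℤ × ℤ × ℤ) :
    U k 1 0 x m q = 2 * gpos k x m q - 2 * gneg k x m (-q) := by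
  unfold U gpos gneg
  rw [neg_neg, ev_neg, ev10]
  simp only [Prod.fst_neg]
  by_cases h2 : q.1 = 0
  · rw [if_neg (fun h => h.1 h2), if_neg (fun h => by linarith [h.1]),
      if_neg (fun h => by linarith [h.1])]
    ring
  by_cases h3 : ev q x m = 0
  · rw [if_neg (fun h => h.2 h3), if_neg (fun h => by linarith [h.2]),
      if_neg (fun h => by linarith [h.2])]
    ring
  rw [if_pos ⟨h2, h3⟩]
  rcases lt_or_gt_of_ne h2 with h4 | h4
  · have n1 : ¬ (0 < q.1 ∧ ev q x m < 0) := fun h => by linarith [h.1]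
    rw [if_neg n1, Int.sign_eq_neg_one_of_neg h4]
    rcases lt_or_gt_of_ne h3 with h5 | h5
    · have n2 : ¬ (0 < -q.1 ∧ -ev q x m < 0) := fun h => by linarith [h.2]
      rw [if_neg n2, Int.sign_eq_neg_one_of_neg h5]
      ring
    · have n2 : (0 < -q.1 ∧ -ev q x m < 0) := ⟨by linarith, by linarith⟩
      rw [if_pos n2, Int.sign_eq_one_of_pos h5]
      ring
  · have n1 : ¬ (0 < -q.1 ∧ -ev q x m < 0) := fun h => by linarith [h.1]
    rw [if_neg n1, Int.sign_eq_one_of_pos h4]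
    rcases lt_or_gt_of_ne h3 with h5 | h5
    · have n2 : (0 < q.1 ∧ ev q x m < 0) := ⟨h4, h5⟩
      rw [if_pos n2, Int.sign_eq_neg_one_of_neg h5]
      ring
    · have n2 : ¬ (0 < q.1 ∧ ev q x m < 0) := fun h => by linarith [h.2]
      rw [if_neg n2, Int.sign_eq_one_of_pos h5]
      ring

theorem g_disj {x m : ℤ} (q : ℤ × ℤ × ℤ) : gpos k x m q = 0 ∨ gneg k x m (-q) = 0 := by
  by_contra h
  rw [not_or] at h
  obtain ⟨h1, h2⟩ := h
  have h5 : 0 < q.1 ∧ ev q x m < 0 := by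
    unfold gpos at h1
    by_contra h6
    rw [if_neg h6] at h1
    exact h1 rfl
  have h4 : 0 < (-q).1 ∧ ev (-q) x m < 0 := by
    unfold gneg at h2
    by_contra h6
    rw [if_neg h6] at h2
    exact h2 rfl
  have h7 := h4.1
  rw [Prod.fst_neg] at h7
  linarith [h5.1]

theorem gpos_fin (H : Wt N D k) (x m : ℤ) : (Function.support (gpos k x m)).Finite := by
  refine (U_fin H x m).subset ?_
  intro q hq
  have h1 : gpos k x m q ≠ 0 := hq
  rcases g_disj (k := k) (x := x) (m := m) q with h2 | h2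
  · exact absurd h2 h1
  · rw [Function.mem_support, U_split, h2]
    intro h3
    apply h1
    linarith

theorem gneg_fin' (H : Wt N D k) (x m : ℤ) :
    (Function.support (fun q => gneg k x m (-q))).Finite := by
  refine (U_fin H x m).subset ?_
  intro q hq
  have h1 : gneg k x m (-q) ≠ 0 := hq
  rcases g_disj (k := k) (x := x) (m := m) q with h2 | h2
  · rw [Function.mem_support, U_split, h2]
    intro h3
    apply h1
    linarith
  · exact absurd h2 h1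

theorem gneg_fin (H : Wt N D k) (x m : ℤ) : (Function.support (gneg k x m)).Finite := by
  have h := (gneg_fin' H x m).preimage ((neg_injective (G := ℤ × ℤ × ℤ)).injOn)
  refine h.subset ?_
  intro q hq
  show gneg k x m (- -q) ≠ 0
  rw [neg_neg]
  exact hq

/-- the crossing number as twice a count over the forms with positive leading coefficient -/
theorem X_pos (H : Wt N D k) (x m : ℤ) : X k x m = 2 * ∑ᶠ q : ℤ × ℤ × ℤ,
    if 0 < q.1 ∧ ev q x m < 0 then k q - k (-q) else 0 := by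
  have h2 : ∑ᶠ q, gneg k x m (-q) = ∑ᶠ q, gneg k x m q :=
    finsum_comp_equiv (Equiv.neg (ℤ × ℤ × ℤ)) (f := gneg k x m)
  have h3 : X k x m = 2 * (∑ᶠ q, gpos k x m q) - 2 * (∑ᶠ q, gneg k x m (-q)) := by
    unfold X
    rw [finsum_congr U_split, finsum_sub_distrib, mul_finsum, mul_finsum]
    · exact (gpos_fin H x m).subset (Function.support_mul_subset_right _ _)
    · exact (gneg_fin' H x m).subset (Function.support_mul_subset_right _ _)
  have h4 : ∑ᶠ q : ℤ × ℤ × ℤ, (if 0 < q.1 ∧ ev q x m < 0 then k q - k (-q) else 0) =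
      ∑ᶠ q, (gpos k x m q - gneg k x m q) := by
    apply finsum_congr
    intro q
    unfold gpos gneg
    split_ifs <;> ring
  rw [h3, h2, h4, finsum_sub_distrib (gpos_fin H x m) (gneg_fin H x m)]
  ring

end pos

/-! ### the genus character -/

theorem gn_eq (A : ℕ) : gn A = Pool.Agent.N975.PG.gn A := rfl

theorem gn_act {A : ℕ} (hA : A % 2 = 1) {q : ℤ × ℤ × ℤ}
    (hd : q.2.1 ^ 2 - 4 * q.1 * q.2.2 = (A : ℤ) ^ 2) {a b c d : ℤ} (h : a * d - b * c = 1) :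
    gn A (act a b c d q) = gn A q :=
  Pool.Agent.N975.PG.gn_act hA hd h

theorem gn_neg {A : ℕ} (hA : Squarefree A) (a b c b' : ℤ) :
    gn A (-a, b', -c) = jacobiSym (-1) A * gn A (a, b, c) :=
  Pool.Agent.N975.PG.gn_neg hA a b c b'

/-! ### the weights -/

/-- the one orientation part of `SM` -/
def TM (p q l : ℕ) (f : ℤ × ℤ × ℤ) : Prop :=
  f.2.1 ^ 2 - 4 * f.1 * f.2.2 = (l : ℤ) ^ 2 ∧ ((p * q : ℕ) : ℤ) ∣ f.1 ∧
    (p : ℤ) ∣ f.2.1 - l ∧ (q : ℤ) ∣ f.2.1 + l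

/-- the one orientation part of `SR` -/
def TR (p q l : ℕ) (f : ℤ × ℤ × ℤ) : Prop :=
  f.2.1 ^ 2 - 4 * f.1 * f.2.2 = (l : ℤ) ^ 2 ∧ (q : ℤ) ∣ f.1 ∧ ¬ (p : ℤ) ∣ f.1 ∧
    (q : ℤ) ∣ f.2.1 - l

open Classical in
/-- the weight, mixed orientation -/
def kM (p q l : ℕ) (f : ℤ × ℤ × ℤ) : ℤ := if TM p q l f then gn l f else 0

open Classical in
/-- the weight, `p ∤ a` -/
def kR (p q l : ℕ) (f : ℤ × ℤ × ℤ) : ℤ := if TR p q l f then gn l f else 0

/-- the auxiliary discriminant: squarefree, `3 mod 4`, prime to the level `p q` -/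
structure Aux (p q l : ℕ) : Prop where
  sq : Squarefree l
  l3 : l % 4 = 3
  pp : p.Prime
  pq : q.Prime
  p2 : p ≠ 2
  q2 : q ≠ 2
  ne : p ≠ q
  pl : ¬ p ∣ l
  ql : ¬ q ∣ l

theorem Aux.not_two {p l : ℕ} (hp : p.Prime) (h2 : p ≠ 2) (hl : ¬ p ∣ l) :
    ¬ (p : ℤ) ∣ 2 * (l : ℤ) := by
  intro h
  have h1 : p ∣ 2 * l := by exact_mod_cast h
  rcases hp.dvd_mul.1 h1 with h3 | h3
  · exact h2 ((Nat.prime_dvd_prime_iff_eq hp Nat.prime_two).1 h3)
  · exact hl h3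

theorem kM_pos {p q l : ℕ} {f : ℤ × ℤ × ℤ} (h : TM p q l f) : kM p q l f = gn l f := by
  unfold kM
  rw [if_pos h]

theorem kM_neg {p q l : ℕ} {f : ℤ × ℤ × ℤ} (h : ¬ TM p q l f) : kM p q l f = 0 := by
  unfold kM
  rw [if_neg h]

theorem kM_ne {p q l : ℕ} {f : ℤ × ℤ × ℤ} (h : kM p q l f ≠ 0) : TM p q l f := by
  by_contra h1
  exact h (kM_neg h1)

theorem kR_pos {p q l : ℕ} {f : ℤ × ℤ × ℤ} (h : TR p q l f) : kR p q l f = gn l f := by
  unfold kR
  rw [if_pos h]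

theorem kR_neg {p q l : ℕ} {f : ℤ × ℤ × ℤ} (h : ¬ TR p q l f) : kR p q l f = 0 := by
  unfold kR
  rw [if_neg h]

theorem kR_ne {p q l : ℕ} {f : ℤ × ℤ × ℤ} (h : kR p q l f ≠ 0) : TR p q l f := by
  by_contra h1
  exact h (kR_neg h1)

variable {p q l : ℕ}

theorem TM_act {a b c d : ℤ} (h : a * d - b * (((p * q : ℕ) : ℤ) * c) = 1) {f : ℤ × ℤ × ℤ}
    (hf : TM p q l f) : TM p q l (act a b (((p * q : ℕ) : ℤ) * c) d f) := by
  obtain ⟨h1, ⟨k, hk⟩, ⟨m, hm⟩, ⟨n, hn⟩⟩ := hf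
  push_cast at h hk ⊢
  unfold act TM
  simp only
  refine ⟨?_, ?_, ?_, ?_⟩
  · linear_combination (a * d - b * (p * q * c)) ^ 2 * h1 +
      (l : ℤ) ^ 2 * (a * d - b * (p * q * c) + 1) * h
  · push_cast
    exact ⟨k * a ^ 2 + f.2.1 * a * c + f.2.2 * (p * q) * c ^ 2, by rw [hk]; ring⟩
  · refine ⟨m + 2 * q * k * a * b + 2 * f.2.1 * (q * b * c) + 2 * f.2.2 * q * c * d, ?_⟩
    rw [hk]
    linear_combination hm + f.2.1 * h
  · refine ⟨n + 2 * p * k * a * b + 2 * f.2.1 * (p * b * c) + 2 * f.2.2 * p * c * d, ?_⟩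
    rw [hk]
    linear_combination hn + f.2.1 * h

theorem TM_act_iff {a b c d : ℤ} (h : a * d - b * (((p * q : ℕ) : ℤ) * c) = 1)
    {f : ℤ × ℤ × ℤ} : TM p q l (act a b (((p * q : ℕ) : ℤ) * c) d f) ↔ TM p q l f := by
  constructor
  · intro h1
    have h2 := TM_act (a := d) (b := -b) (c := -c) (d := a) (by linear_combination h) h1
    have e : ((p * q : ℕ) : ℤ) * -c = -(((p * q : ℕ) : ℤ) * c) := by ring
    rw [e, act_inv h] at h2
    exact h2
  · exact TM_act h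

theorem TR_act (hp : p.Prime) {a b c d : ℤ} (h : a * d - b * (((p * q : ℕ) : ℤ) * c) = 1)
    {f : ℤ × ℤ × ℤ} (hf : TR p q l f) : TR p q l (act a b (((p * q : ℕ) : ℤ) * c) d f) := by
  obtain ⟨h1, ⟨k, hk⟩, h2, ⟨m, hm⟩⟩ := hf
  push_cast at h ⊢
  unfold act TR
  simp only
  refine ⟨?_, ?_, ?_, ?_⟩
  · linear_combination (a * d - b * (p * q * c)) ^ 2 * h1 +
      (l : ℤ) ^ 2 * (a * d - b * (p * q * c) + 1) * h
  · exact ⟨k * a ^ 2 + f.2.1 * a * (p * c) + f.2.2 * (p * q) * p * c ^ 2, by rw [hk]; ring⟩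
  · intro h3
    have hpp : Prime (p : ℤ) := Nat.prime_iff_prime_int.1 hp
    have h4 : (p : ℤ) ∣ f.1 * a ^ 2 := by
      have e : f.1 * a ^ 2 = (f.1 * a ^ 2 + f.2.1 * a * (p * q * c) + f.2.2 * (p * q * c) ^ 2) -
          p * (f.2.1 * a * (q * c) + f.2.2 * p * (q * c) ^ 2) := by ring
      rw [e]
      exact h3.sub (dvd_mul_right _ _)
    rcases hpp.dvd_or_dvd h4 with h5 | h5
    · exact h2 h5
    · have h6 := hpp.dvd_of_dvd_pow h5
      obtain ⟨j, hj⟩ := h6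
      have h7 : (p : ℤ) ∣ 1 := ⟨j * d - b * (q * c), by rw [← h, hj]; ring⟩
      exact hpp.not_dvd_one h7
  · refine ⟨m + 2 * k * a * b + 2 * f.2.1 * (p * b * c) + 2 * f.2.2 * p * c * d, ?_⟩
    rw [hk]
    linear_combination hm + f.2.1 * h

theorem TR_act_iff (hp : p.Prime) {a b c d : ℤ} (h : a * d - b * (((p * q : ℕ) : ℤ) * c) = 1)
    {f : ℤ × ℤ × ℤ} : TR p q l (act a b (((p * q : ℕ) : ℤ) * c) d f) ↔ TR p q l f := by
  constructor
  · intro h1
    have h2 := TR_act hp (a := d) (b := -b) (c := -c) (d := a) (by linear_combination h) h1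
    have e : ((p * q : ℕ) : ℤ) * -c = -(((p * q : ℕ) : ℤ) * c) := by ring
    rw [e, act_inv h] at h2
    exact h2
  · exact TR_act hp h

theorem TM_refl {a b c : ℤ} : TM p q l (-a, b, -c) ↔ TM p q l (a, b, c) := by
  unfold TM
  simp only [dvd_neg]
  have : b ^ 2 - 4 * -a * -c = b ^ 2 - 4 * a * c := by ring
  rw [this]

theorem TR_refl {a b c : ℤ} : TR p q l (-a, b, -c) ↔ TR p q l (a, b, c) := by
  unfold TR
  simp only [dvd_neg]
  have : b ^ 2 - 4 * -a * -c = b ^ 2 - 4 * a * c := by ring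
  rw [this]

/-- a form with the mixed orientation has `a c ≠ 0` -/
theorem TM_ne (X : Aux p q l) {f : ℤ × ℤ × ℤ} (h : TM p q l f) : f.1 * f.2.2 ≠ 0 := by
  intro h0
  obtain ⟨h1, -, h3, h4⟩ := h
  have h5 : (f.2.1 - l) * (f.2.1 + l) = 0 := by linear_combination h1 + 4 * h0
  rcases mul_eq_zero.1 h5 with h6 | h6
  · apply Aux.not_two X.pq X.q2 X.ql
    have : 2 * (l : ℤ) = (f.2.1 + l) - (f.2.1 - l) := by ring
    rw [this, h6, sub_zero]
    exact h4
  · apply Aux.not_two X.pp X.p2 X.pl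
    have : 2 * (l : ℤ) = (f.2.1 + l) - (f.2.1 - l) := by ring
    rw [this, h6, zero_sub, dvd_neg]
    exact h3

theorem wt_kM (X : Aux p q l) : Wt ((p * q : ℕ) : ℤ) ((l : ℤ) ^ 2) (kM p q l) where
  ne := by
    have : (l : ℤ) ≠ 0 := by exact_mod_cast X.sq.ne_zero
    exact pow_ne_zero 2 this
  disc := fun f hf => (kM_ne hf).1
  inv := by
    intro a b c d h f
    by_cases hf : TM p q l f
    · rw [kM_pos hf, kM_pos (TM_act h hf), gn_act (by have := X.l3; omega) hf.1 h]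
    · rw [kM_neg hf, kM_neg (fun h1 => hf ((TM_act_iff h).1 h1))]
  ninf := by
    intro f h0
    by_contra hf
    exact TM_ne X (kM_ne hf) (by rw [h0, zero_mul])

theorem wt_kR (X : Aux p q l) : Wt ((p * q : ℕ) : ℤ) ((l : ℤ) ^ 2) (kR p q l) where
  ne := by
    have : (l : ℤ) ≠ 0 := by exact_mod_cast X.sq.ne_zero
    exact pow_ne_zero 2 this
  disc := fun f hf => (kR_ne hf).1
  inv := by
    intro a b c d h f
    by_cases hf : TR p q l f
    · rw [kR_pos hf, kR_pos (TR_act X.pp h hf), gn_act (by have := X.l3; omega) hf.1 h]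
    · rw [kR_neg hf, kR_neg (fun h1 => hf ((TR_act_iff X.pp h).1 h1))]
  ninf := by
    intro f h0
    by_contra hf
    apply (kR_ne hf).2.2.1
    rw [h0]
    exact dvd_zero _

theorem jac_neg (X : Aux p q l) : jacobiSym (-1) l = -1 := by
  have h1 := jacobiSym.at_neg_one (Nat.odd_iff.2 (by have := X.l3; omega : l % 2 = 1))
  rw [h1, ZMod.χ₄_nat_three_mod_four X.l3]

theorem par_kM (X : Aux p q l) : Par (kM p q l) (-1) := by
  intro a b c
  have hg := gn_neg X.sq a b c b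
  rw [jac_neg X] at hg
  by_cases hf : TM p q l (a, b, c)
  · rw [kM_pos hf, kM_pos (TM_refl.2 hf), hg]
  · rw [kM_neg hf, kM_neg (fun h1 => hf (TM_refl.1 h1)), mul_zero]

theorem par_kR (X : Aux p q l) : Par (kR p q l) (-1) := by
  intro a b c
  have hg := gn_neg X.sq a b c b
  rw [jac_neg X] at hg
  by_cases hf : TR p q l (a, b, c)
  · rw [kR_pos hf, kR_pos (TR_refl.2 hf), hg]
  · rw [kR_neg hf, kR_neg (fun h1 => hf (TR_refl.1 h1)), mul_zero]

theorem nz_kM (X : Aux p q l) : NZ (kM p q l) 0 1 := by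
  intro f h0
  by_contra hf
  refine TM_ne X (kM_ne hf) ?_
  have e : ev f 0 1 = f.2.2 := by unfold ev; ring
  rw [← e, h0, mul_zero]

theorem nz_kR : NZ (kR p q l) 1 (p : ℤ) := by
  intro f h0
  by_contra hf
  apply (kR_ne hf).2.2.1
  refine ⟨-(f.2.1 + f.2.2 * p), ?_⟩
  unfold ev at h0
  linear_combination h0

/-! ### the crossing numbers of the weights -/

theorem X_kM (X' : Aux p q l) (x M : ℤ) : X (kM p q l) x M = 2 * Fm p q l x M := by
  classical
  rw [X_pos (wt_kM X') x M]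
  unfold Fm
  congr 1
  apply finsum_congr
  intro f
  have hev : f.1 * x ^ 2 + f.2.1 * x * M + f.2.2 * M ^ 2 = ev f x M := rfl
  rw [hev]
  have hg : gn l (-f) = -gn l f := by
    have := gn_neg X'.sq f.1 f.2.1 f.2.2 (-f.2.1)
    rw [jac_neg X'] at this
    have e : -f = (-f.1, -f.2.1, -f.2.2) := rfl
    rw [e, this]
    ring
  have hiff : SM p q l f ↔ TM p q l f ∨ TM p q l (-f) := by
    unfold SM TM
    simp only [Prod.fst_neg, Prod.snd_neg, dvd_neg]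
    have e1 : (-f.2.1) ^ 2 - 4 * -f.1 * -f.2.2 = f.2.1 ^ 2 - 4 * f.1 * f.2.2 := by ring
    have e2 : -f.2.1 - (l : ℤ) = -(f.2.1 + l) := by ring
    have e3 : -f.2.1 + (l : ℤ) = -(f.2.1 - l) := by ring
    rw [e1, e2, e3, dvd_neg, dvd_neg]
    tauto
  have hdisj : ¬ (TM p q l f ∧ TM p q l (-f)) := by
    rintro ⟨⟨-, -, h3, -⟩, ⟨-, -, h5, -⟩⟩
    apply Aux.not_two X'.pp X'.p2 X'.pl
    simp only [Prod.snd_neg, Prod.fst_neg] at h5
    have : 2 * (l : ℤ) = -((f.2.1 - l) + (-f.2.1 - l)) := by ring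
    rw [this, dvd_neg]
    exact h3.add h5
  by_cases hc : 0 < f.1 ∧ ev f x M < 0
  · rw [if_pos hc]
    by_cases h1 : TM p q l f
    · have h2 : ¬ TM p q l (-f) := fun h => hdisj ⟨h1, h⟩
      rw [kM_pos h1, kM_neg h2, if_pos ⟨hiff.2 (Or.inl h1), hc.1, hc.2⟩, sub_zero]
    · by_cases h2 : TM p q l (-f)
      · rw [kM_neg h1, kM_pos h2, if_pos ⟨hiff.2 (Or.inr h2), hc.1, hc.2⟩, hg]
        ring
      · rw [kM_neg h1, kM_neg h2, if_neg, sub_zero]
        rintro ⟨h3, -⟩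
        rcases hiff.1 h3 with h4 | h4
        · exact h1 h4
        · exact h2 h4
  · rw [if_neg hc, if_neg (fun h => hc h.2)]

theorem X_kR (X' : Aux p q l) (x M : ℤ) : X (kR p q l) x M = 2 * Fr p q l x M := by
  classical
  rw [X_pos (wt_kR X') x M]
  unfold Fr
  congr 1
  apply finsum_congr
  intro f
  have hev : f.1 * x ^ 2 + f.2.1 * x * M + f.2.2 * M ^ 2 = ev f x M := rfl
  rw [hev]
  have hg : gn l (-f) = -gn l f := by
    have := gn_neg X'.sq f.1 f.2.1 f.2.2 (-f.2.1)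
    rw [jac_neg X'] at this
    have e : -f = (-f.1, -f.2.1, -f.2.2) := rfl
    rw [e, this]
    ring
  have hiff : SR p q l f ↔ TR p q l f ∨ TR p q l (-f) := by
    unfold SR TR
    simp only [Prod.fst_neg, Prod.snd_neg, dvd_neg]
    have e1 : (-f.2.1) ^ 2 - 4 * -f.1 * -f.2.2 = f.2.1 ^ 2 - 4 * f.1 * f.2.2 := by ring
    have e2 : -f.2.1 - (l : ℤ) = -(f.2.1 + l) := by ring
    rw [e1, e2, dvd_neg]
    constructor
    · rintro ⟨h1, h2, h3⟩
      have hqq : Prime (q : ℤ) := Nat.prime_iff_prime_int.1 X'.pq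
      have h4 : (q : ℤ) ∣ (f.2.1 - l) * (f.2.1 + l) := by
        have e : (f.2.1 - l) * (f.2.1 + (l : ℤ)) = 4 * f.1 * f.2.2 := by linear_combination h1
        rw [e]
        exact Dvd.dvd.mul_right (Dvd.dvd.mul_left h2 4) _
      rcases hqq.dvd_or_dvd h4 with h5 | h5
      · exact Or.inl ⟨h1, h2, h3, h5⟩
      · exact Or.inr ⟨h1, h2, h3, h5⟩
    · rintro (⟨h1, h2, h3, -⟩ | ⟨h1, h2, h3, -⟩)
      · exact ⟨h1, h2, h3⟩
      · exact ⟨h1, h2, h3⟩
  have hdisj : ¬ (TR p q l f ∧ TR p q l (-f)) := by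
    rintro ⟨⟨-, -, -, h3⟩, ⟨-, -, -, h5⟩⟩
    apply Aux.not_two X'.pq X'.q2 X'.ql
    simp only [Prod.snd_neg, Prod.fst_neg] at h5
    have : 2 * (l : ℤ) = -((f.2.1 - l) + (-f.2.1 - l)) := by ring
    rw [this, dvd_neg]
    exact h3.add h5
  by_cases hc : 0 < f.1 ∧ ev f x M < 0
  · rw [if_pos hc]
    by_cases h1 : TR p q l f
    · have h2 : ¬ TR p q l (-f) := fun h => hdisj ⟨h1, h⟩
      rw [kR_pos h1, kR_neg h2, if_pos ⟨hiff.2 (Or.inl h1), hc.1, hc.2⟩, sub_zero]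
    · by_cases h2 : TR p q l (-f)
      · rw [kR_neg h1, kR_pos h2, if_pos ⟨hiff.2 (Or.inr h2), hc.1, hc.2⟩, hg]
        ring
      · rw [kR_neg h1, kR_neg h2, if_neg, sub_zero]
        rintro ⟨h3, -⟩
        rcases hiff.1 h3 with h4 | h4
        · exact h1 h4
        · exact h2 h4
  · rw [if_neg hc, if_neg (fun h => hc h.2)]

theorem sum_kM (X' : Aux p q l) (S : Finset ℕ) (χ : ℤ → ℤ) (A : ℕ)
    (hne : ∑ u ∈ S, χ u * Fm p q l u A ≠ 0) : ∑ u ∈ S, χ u * X (kM p q l) u A ≠ 0 := by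
  have e : ∑ u ∈ S, χ u * X (kM p q l) u A = 2 * ∑ u ∈ S, χ u * Fm p q l u A := by
    rw [Finset.mul_sum]
    exact Finset.sum_congr rfl fun u _ => by rw [X_kM X']; ring
  rw [e]
  exact mul_ne_zero two_ne_zero hne

theorem sum_kR (X' : Aux p q l) (S : Finset ℕ) (χ : ℤ → ℤ) (A : ℕ)
    (hne : ∑ u ∈ S, χ u * Fr p q l u A ≠ 0) : ∑ u ∈ S, χ u * X (kR p q l) u A ≠ 0 := by
  have e : ∑ u ∈ S, χ u * X (kR p q l) u A = 2 * ∑ u ∈ S, χ u * Fr p q l u A := by
    rw [Finset.mul_sum]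
    exact Finset.sum_congr rfl fun u _ => by rw [X_kR X']; ring
  rw [e]
  exact mul_ne_zero two_ne_zero hne

end

end Pool.Agent.N974.GN
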