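import Pool.Agent.N974.GN.EvenH
import Pool.Agent.N975.S21.Hom

/-!
# Odd homomorphisms on `Γ₀(N)`; uniqueness for the levels `15` and `21`
-/

set_option autoImplicit false

namespace Pool.Agent.N974.GN

/-- a homomorphism on `Γ₀(N)` with the odd symmetry, zero at two parabolic elements; the matrix is
`(a, b; N c, d)` -/
structure OddHom (N : ℤ) {R : Type*} [AddCommGroup R] (φ : ℤ → ℤ → ℤ → ℤ → R) : Prop where
  hom : ∀ {a b c d a' b' c' d' : ℤ}, a * d - N * (b * c) = 1 → a' * d' - N * (b' * c') = 1 →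
    φ (a * a' + b * (N * c')) (a * b' + b * d') (c * a' + d * c') (N * c * b' + d * d') =
      φ a b c d + φ a' b' c' d'
  neg : ∀ {a b c d : ℤ}, a * d - N * (b * c) = 1 → φ (-a) (-b) (-c) (-d) = φ a b c d
  odd : ∀ {a b c d : ℤ}, a * d - N * (b * c) = 1 → φ a (-b) (-c) d = -φ a b c d
  hT : φ 1 1 0 1 = 0
  hV : φ 1 0 1 1 = 0

namespace OddHom

variable {N : ℤ} {R : Type*} [AddCommGroup R] [NoZeroSMulDivisors ℤ R] {φ : ℤ → ℤ → ℤ → ℤ → R}

theorem one (H : OddHom N φ) : φ 1 0 0 1 = 0 := by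
  have h := H.hom (a := 1) (b := 0) (c := 0) (d := 1) (a' := 1) (b' := 0) (c' := 0) (d' := 1)
    (by ring) (by ring)
  simp only [mul_one, mul_zero, zero_mul, add_zero, zero_add] at h
  exact left_eq_add.1 h

theorem inv (H : OddHom N φ) {a b c d : ℤ} (h : a * d - N * (b * c) = 1) :
    φ d (-b) (-c) a = -φ a b c d := by
  have h1 := H.hom (a := a) (b := b) (c := c) (d := d) (a' := d) (b' := -b) (c' := -c) (d' := a)
    h (by linear_combination h)
  have e1 : a * d + b * (N * -c) = 1 := by linear_combination h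
  have e2 : a * -b + b * a = 0 := by ring
  have e3 : c * d + d * -c = 0 := by ring
  have e4 : N * c * -b + d * a = 1 := by linear_combination h
  rw [e1, e2, e3, e4, H.one] at h1
  rw [eq_neg_iff_add_eq_zero, add_comm]
  exact h1.symm

theorem hTk (H : OddHom N φ) (k : ℤ) : φ 1 k 0 1 = 0 := by
  induction k using Int.induction_on with
  | zero => exact H.one
  | succ n ih =>
    have h := H.hom (a := 1) (b := n) (c := 0) (d := 1) (a' := 1) (b' := 1) (c' := 0) (d' := 1)
      (by ring) (by ring)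
    rw [ih, H.hT, add_zero] at h
    rw [← h]
    congr 1 <;> ring
  | pred n ih =>
    have h := H.hom (a := 1) (b := -(n : ℤ) - 1) (c := 0) (d := 1) (a' := 1) (b' := 1) (c' := 0)
      (d' := 1) (by ring) (by ring)
    rw [H.hT, add_zero] at h
    rw [← h, ← ih]
    congr 1 <;> ring

theorem hVk (H : OddHom N φ) (k : ℤ) : φ 1 0 k 1 = 0 := by
  induction k using Int.induction_on with
  | zero => exact H.one
  | succ n ih =>
    have h := H.hom (a := 1) (b := 0) (c := n) (d := 1) (a' := 1) (b' := 0) (c' := 1) (d' := 1)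
      (by ring) (by ring)
    rw [ih, H.hV, add_zero] at h
    rw [← h]
    congr 1 <;> ring
  | pred n ih =>
    have h := H.hom (a := 1) (b := 0) (c := -(n : ℤ) - 1) (d := 1) (a' := 1) (b' := 0) (c' := 1)
      (d' := 1) (by ring) (by ring)
    rw [H.hV, add_zero] at h
    rw [← h, ← ih]
    congr 1 <;> ring

/-- the transpose-type symmetry -/
theorem tr (H : OddHom N φ) {a b c d : ℤ} (h : a * d - N * (b * c) = 1) :
    φ d b c a = φ a b c d := by
  have h' : d * a - N * (b * c) = 1 := by linear_combination h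
  have h1 := H.odd h'
  rw [H.inv h] at h1
  exact (neg_injective h1).symm

theorem ref (H : OddHom N φ) {a b c d : ℤ} (h : a * d - N * (b * c) = 1) :
    φ (-a) b c (-d) = -φ a b c d := by
  have h' : (-a) * (-d) - N * (b * c) = 1 := by linear_combination h
  have h1 := H.neg h'
  rw [neg_neg, neg_neg] at h1
  rw [← h1, H.odd h]

/-- invariance under translations -/
theorem trans (H : OddHom N φ) {a b c d : ℤ} (h : a * d - N * (b * c) = 1) (j k : ℤ) :
    φ (a + N * c * j) (b + j * d + k * (a + N * c * j)) c (d + N * c * k) = φ a b c d := by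
  have h1 := H.hom (a := 1) (b := j) (c := 0) (d := 1) (a' := a) (b' := b) (c' := c) (d' := d)
    (by ring) h
  have h2 : (1 * a + j * (N * c)) * (N * 0 * b + 1 * d) - N * ((1 * b + j * d) *
      (0 * a + 1 * c)) = 1 := by linear_combination h
  have h3 := H.hom (a := 1 * a + j * (N * c)) (b := 1 * b + j * d) (c := 0 * a + 1 * c)
    (d := N * 0 * b + 1 * d) (a' := 1) (b' := k) (c' := 0) (d' := 1) h2 (by ring)
  rw [h1, H.hTk, H.hTk, zero_add, add_zero] at h3
  rw [← h3]
  congr 1 <;> ring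

/-- the value at `(A, B; N c, D)` only depends on `c` and on `D` modulo `N c` -/
theorem modD (H : OddHom N φ) {c A B D A' B' D' : ℤ} (hc : N * c ≠ 0)
    (h : A * D - N * (B * c) = 1)
    (h' : A' * D' - N * (B' * c) = 1) (hD : N * c ∣ D' - D) : φ A' B' c D' = φ A B c D := by
  obtain ⟨k, hk⟩ := hD
  have hA : N * c ∣ A' - A := by
    have h1 : A' - A = N * c * (A * B' - A' * B - k * A * A') := by
      linear_combination -A' * h + A * h' - A * A' * hk
    exact ⟨_, h1⟩
  obtain ⟨j, hj⟩ := hA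
  have h1 := H.trans h j k
  rw [← h1]
  have e1 : A' = A + N * c * j := by linear_combination hj
  have e2 : D' = D + N * c * k := by linear_combination hk
  have e3 : B' = B + j * D + k * (A + N * c * j) := by
    rw [e1, e2] at h'
    have h4 : (N * c) * B' = (N * c) * (B + j * D + k * (A + N * c * j)) := by
      linear_combination h - h'
    exact mul_left_cancel₀ hc h4
  rw [← e3, ← e1, ← e2]

theorem step (H : OddHom N φ) {A B D A' B' : ℤ} (h : A * D - N * (B * 1) = 1)
    (h' : A' * (D + 1) - N * (B' * 1) = 1) :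
    φ (A * (D + 1) - N * B) (B * A' - A * B') 1 (D * A' - N * B') =
      φ A B 1 D - φ A' B' 1 (D + 1) := by
  have h1 := H.inv h'
  have h2 := H.hom (a := A) (b := B) (c := 1) (d := D) (a' := D + 1) (b' := -B') (c' := -1)
    (d' := A') h (by linear_combination h')
  rw [h1, ← sub_eq_add_neg] at h2
  rw [← h2]
  congr 1 <;> ring

theorem base (H : OddHom N φ) {a b c : ℤ} (h : a * 1 - N * (b * c) = 1) : φ a b c 1 = 0 := by
  have h1 := H.hom (a := 1) (b := b) (c := 0) (d := 1) (a' := 1) (b' := 0) (c' := c) (d' := 1)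
    (by ring) (by ring)
  rw [H.hTk, H.hVk, add_zero] at h1
  rw [← h1]
  congr 1
  · linear_combination h
  · ring
  · ring
  · ring

theorem smul_zero' {x : R} {n : ℤ} (hn : n ≠ 0) (h : n • x = 0) : x = 0 :=
  (smul_eq_zero.1 h).resolve_left hn

theorem two_zero' {x : R} (h : -x = x) : x = 0 := Pool.Agent.N975.S17.OddHom.two_zero h.symm

/-- the reduction: the homomorphism vanishes if it vanishes at the generators with `c = 1, 2` -/
theorem zero_of {p q : ℕ} (hp : p.Prime) (hq : q.Prime) (hp2 : 2 < p) (hq2 : 2 < q)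
    {φ : ℤ → ℤ → ℤ → ℤ → R} (H : OddHom ((p : ℤ) * q) φ)
    (g1 : ∀ {A B D : ℤ}, A * D - ((p : ℤ) * q) * (B * 1) = 1 → φ A B 1 D = 0)
    (g2 : ∀ {A B D : ℤ}, A * D - ((p : ℤ) * q) * (B * 2) = 1 →
      (∃ t : ℤ, D = -(2 * t + 1) ∧ (((p : ℤ) ∣ t ∧ (q : ℤ) ∣ t + 1) ∨
        ((q : ℤ) ∣ t ∧ (p : ℤ) ∣ t + 1))) → φ A B 2 D = 0) (n : ℕ) :
    ∀ a b c d : ℤ, a * d - ((p : ℤ) * q) * (b * c) = 1 → d.natAbs = n → φ a b c d = 0 := by
  obtain ⟨N, hN⟩ : ∃ N : ℤ, N = (p : ℤ) * q := ⟨_, rfl⟩
  rw [← hN] at H g1 g2 ⊢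
  have hpP : Prime (p : ℤ) := Nat.prime_iff_prime_int.1 hp
  have hqP : Prime (q : ℤ) := Nat.prime_iff_prime_int.1 hq
  have d_ne : ∀ {a b c d : ℤ}, a * d - N * (b * c) = 1 → d ≠ 0 := by
    rintro a b c d h rfl
    have h1 : (p : ℤ) ∣ 1 := ⟨-(q * (b * c)), by rw [hN] at h; linear_combination -h⟩
    exact hpP.not_isUnit (isUnit_of_dvd_one h1)
  induction n using Nat.strong_induction_on with
  | _ n ih =>
    intro a b c d h hn
    have hd := d_ne h
    by_cases h1 : d = 1
    · subst h1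
      exact H.base h
    by_cases h2 : d = -1
    · subst h2
      rw [← H.neg h]
      exact H.base (by linear_combination h)
    -- the reduction
    have hnd : ¬ d ∣ N * b := by
      rintro ⟨k, hk⟩
      have h3 : d ∣ 1 := ⟨a - k * c, by linear_combination -h - c * hk⟩
      rcases Int.isUnit_iff.1 (isUnit_of_dvd_one h3) with h4 | h4
      · exact h1 h4
      · exact h2 h4
    wlog hdp : 0 < d generalizing a b c d
    · have h3 := this (-a) (-b) (-c) (-d) (by linear_combination h) (by rw [Int.natAbs_neg, hn])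
        (by omega) (by omega) (by omega)
        (by
          intro h4
          apply hnd
          have h5 : N * -b = -(N * b) := by ring
          rw [h5, dvd_neg, neg_dvd] at h4
          exact h4) (by omega)
      rwa [H.neg h] at h3
    have hr0 := Int.emod_nonneg (N * b) hd
    have hr1 := Int.emod_lt_of_pos (N * b) hdp
    have hr2 : N * b % d ≠ 0 := fun h3 => hnd (Int.dvd_of_emod_eq_zero h3)
    have hr3 := Int.emod_add_mul_ediv (N * b) d
    have step1 : ∀ c0 D : ℤ, (∀ A B : ℤ, A * D - N * (B * c0) = 1 → φ A B c0 D = 0) →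
        IsCoprime D (N * c0) → |N * c0 * b + D * d| < |d| → φ a b c d = 0 := by
      intro c0 D hg hcop hlt
      obtain ⟨u, v, huv⟩ := hcop
      have hAB : u * D - N * (-v * c0) = 1 := by linear_combination huv
      have h3 := H.hom (a := u) (b := -v) (c := c0) (d := D) (a' := a) (b' := b) (c' := c)
        (d' := d) hAB h
      rw [hg _ _ hAB, zero_add] at h3
      rw [← h3]
      refine ih _ ?_ _ _ _ _ ?_ rfl
      · rw [← hn]
        zify
        exact hlt
      · linear_combination h + (a * d - N * (b * c)) * hAB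
    have copN : ∀ D : ℤ, ¬ (p : ℤ) ∣ D → ¬ (q : ℤ) ∣ D → IsCoprime D N := by
      intro D h3 h7
      rw [hN]
      refine IsCoprime.mul_right ?_ ?_
      · rw [isCoprime_comm]
        exact hpP.coprime_iff_not_dvd.2 h3
      · rw [isCoprime_comm]
        exact hqP.coprime_iff_not_dvd.2 h7
    have s1 : ∀ D : ℤ, ¬ (p : ℤ) ∣ D → ¬ (q : ℤ) ∣ D → |N * b + D * d| < |d| →
        φ a b c d = 0 := by
      intro D h3 h7 hlt
      refine step1 1 D (fun A B hAB => g1 hAB) ?_ ?_
      · rw [mul_one]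
        exact copN D h3 h7
      · rw [mul_one]
        exact hlt
    have hpz : (2 : ℤ) < p := by exact_mod_cast hp2
    have hqz : (2 : ℤ) < q := by exact_mod_cast hq2
    obtain ⟨t, ht⟩ : ∃ t, t = N * b / d := ⟨_, rfl⟩
    rw [← ht] at hr3
    have nboth : ∀ x : ℤ, ∀ r : ℤ, 2 < r → r ∣ x → ¬ r ∣ x + 1 := by
      intro x r hr h3 h4
      have h5 : r ∣ 1 := by
        have := dvd_sub h4 h3
        rwa [add_sub_cancel_left] at this
      have := Int.le_of_dvd one_pos h5
      omega
    have nboth2 : ∀ x : ℤ, ∀ r : ℤ, 2 < r → r ∣ x → ¬ r ∣ 2 * x + 1 := by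
      intro x r hr h3 h4
      have h5 : r ∣ 1 := by
        have := dvd_sub h4 (h3.mul_left 2)
        rwa [add_sub_cancel_left] at this
      have := Int.le_of_dvd one_pos h5
      omega
    have nboth3 : ∀ x : ℤ, ∀ r : ℤ, 2 < r → r ∣ x + 1 → ¬ r ∣ 2 * x + 1 := by
      intro x r hr h3 h4
      have h5 : r ∣ 1 := by
        have := dvd_sub (h3.mul_left 2) h4
        have e : 2 * (x + 1) - (2 * x + 1) = 1 := by ring
        rwa [e] at this
      have := Int.le_of_dvd one_pos h5
      omega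
    by_cases c1 : (p : ℤ) ∣ t ∨ (q : ℤ) ∣ t
    · by_cases c2 : (p : ℤ) ∣ (t + 1) ∨ (q : ℤ) ∣ (t + 1)
      · -- `c = 2`
        have hD : ((p : ℤ) ∣ t ∧ (q : ℤ) ∣ t + 1) ∨ ((q : ℤ) ∣ t ∧ (p : ℤ) ∣ t + 1) := by
          rcases c1 with c1 | c1 <;> rcases c2 with c2 | c2
          · exact absurd c2 (nboth t p hpz c1)
          · exact Or.inl ⟨c1, c2⟩
          · exact Or.inr ⟨c1, c2⟩
          · exact absurd c2 (nboth t q hqz c1)
        refine step1 2 (-(2 * t + 1)) (fun A B hAB => g2 hAB ⟨t, rfl, hD⟩) ?_ ?_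
        · have e : N * 2 = 2 * N := by ring
          rw [e]
          refine IsCoprime.mul_right ⟨-1, -t, by ring⟩ (copN _ ?_ ?_)
          · rw [dvd_neg]
            rcases hD with ⟨h3, h4⟩ | ⟨h3, h4⟩
            · exact nboth2 t p hpz h3
            · exact nboth3 t p hpz h4
          · rw [dvd_neg]
            rcases hD with ⟨h3, h4⟩ | ⟨h3, h4⟩
            · exact nboth3 t q hqz h4
            · exact nboth2 t q hqz h3
        · have e : N * 2 * b + -(2 * t + 1) * d = 2 * (N * b % d) - d := by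
            linear_combination -2 * hr3
          rw [e, abs_of_pos hdp, abs_lt]
          constructor <;> omega
      · rw [not_or] at c2
        refine s1 (-(t + 1)) (by rw [dvd_neg]; exact c2.1) (by rw [dvd_neg]; exact c2.2) ?_
        have e : N * b + -(t + 1) * d = N * b % d - d := by
          linear_combination -hr3
        rw [e, abs_of_pos hdp, abs_lt]
        constructor <;> omega
    · rw [not_or] at c1
      refine s1 (-t) (by rw [dvd_neg]; exact c1.1) (by rw [dvd_neg]; exact c1.2) ?_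
      have e : N * b + -t * d = N * b % d := by
        linear_combination -hr3
      rw [e, abs_of_nonneg hr0, abs_of_pos hdp]
      exact hr1

/-! ### level `21` -/

/-- **uniqueness for level `21`**: an odd homomorphism vanishing at the parabolic element fixing
`1 / 3` is determined by the value at `(8, 3; 21, 8)` -/
theorem zero21 (H : OddHom 21 φ) (hP : φ (-20) 7 (-3) 22 = 0) (h8 : φ 8 3 1 8 = 0) :
    ∀ a b c d : ℤ, a * d - 21 * (b * c) = 1 → φ a b c d = 0 := by
  have H' : Pool.Agent.N975.S21.OddHom φ := ⟨H.hom, H.neg, H.odd, H.hT, H.hV, hP, h8⟩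
  intro a b c d h
  exact H'.zero d.natAbs a b c d h rfl

/-! ### level `15` -/

/-- **uniqueness for level `15`**: an odd homomorphism vanishing at the parabolic element fixing
`1 / 3` is determined by the value at `(4, 1; 15, 4)` -/
theorem zero15 (H : OddHom 15 φ) (hP : φ (-14) 5 (-3) 16 = 0) (h4 : φ 4 1 1 4 = 0) :
    ∀ a b c d : ℤ, a * d - 15 * (b * c) = 1 → φ a b c d = 0 := by
  have e28 : φ 2 1 1 8 = φ 8 1 1 2 := H.tr (by norm_num)
  have g2 : φ 8 1 1 2 = 0 := by
    have h1 := H.step (A := 1) (B := 0) (D := 1) (A' := 8) (B' := 1) (by norm_num) (by norm_num)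
    norm_num at h1
    rw [H.hV, zero_sub] at h1
    have h2 : φ 2 (-1) 1 (-7) = φ 2 1 1 8 :=
      H.modD (by norm_num) (by norm_num) (by norm_num) (by norm_num)
    rw [h2, e28] at h1
    exact two_zero' h1.symm
  have g7 : φ 13 6 1 7 = 0 := by
    have h3 := H.ref (by norm_num : (2 : ℤ) * 8 - 15 * (1 * 1) = 1)
    have h5 : φ 13 6 1 7 = φ (-2) 1 1 (-8) :=
      H.modD (by norm_num) (by norm_num) (by norm_num) (by norm_num)
    rw [h5, h3, e28, g2, neg_zero]
  have g11 : φ 11 4 2 11 = 0 := by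
    have h1 := H.hom (a := -4) (b := 1) (c := 1) (d := -4) (a' := -14) (b' := 5) (c' := -3)
      (d' := 16) (by norm_num) (by norm_num)
    norm_num at h1
    have h2 := H.odd (by norm_num : (11 : ℤ) * 11 - 15 * (4 * 2) = 1)
    have h3 := H.ref (by norm_num : (4 : ℤ) * 4 - 15 * (1 * 1) = 1)
    rw [h2, h3, h4, hP, neg_zero, add_zero] at h1
    exact neg_eq_zero.1 h1
  have gen1 : ∀ {A B D : ℤ}, A * D - 15 * (B * 1) = 1 → φ A B 1 D = 0 := by
    intro A B D h
    have key : ∀ {A0 B0 D0 : ℤ}, A0 * D0 - 15 * (B0 * 1) = 1 → φ A0 B0 1 D0 = 0 →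
        ((15 : ℤ) ∣ D - D0 ∨ (15 : ℤ) ∣ D + D0) → φ A B 1 D = 0 := by
      intro A0 B0 D0 h0 h1 h2
      rcases h2 with h2 | h2
      · rw [H.modD (by norm_num) h0 h (by rwa [mul_one]), h1]
      · have h3 := H.ref h0
        have h4 : (-A0) * (-D0) - 15 * (B0 * 1) = 1 := by linear_combination h0
        rw [H.modD (by norm_num) h4 h (by rwa [mul_one, sub_neg_eq_add]), h3, h1, neg_zero]
    have hD3 : ¬ (3 : ℤ) ∣ D := by
      rintro ⟨k, rfl⟩
      have h1 : (3 : ℤ) ∣ 1 := ⟨A * k - 5 * B, by linear_combination -h⟩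
      norm_num at h1
    have hD5 : ¬ (5 : ℤ) ∣ D := by
      rintro ⟨k, rfl⟩
      have h1 : (5 : ℤ) ∣ 1 := ⟨A * k - 3 * B, by linear_combination -h⟩
      norm_num at h1
    have hc : ((15 : ℤ) ∣ D - 1 ∨ (15 : ℤ) ∣ D + 1) ∨ ((15 : ℤ) ∣ D - 2 ∨ (15 : ℤ) ∣ D + 2) ∨
        ((15 : ℤ) ∣ D - 4 ∨ (15 : ℤ) ∣ D + 4) ∨ ((15 : ℤ) ∣ D - 7 ∨ (15 : ℤ) ∣ D + 7) := by
      have key2 : ∀ r : ℕ, r < 15 → ¬ r % 3 = 0 → ¬ r % 5 = 0 →
          (r = 1 ∨ r = 14) ∨ (r = 2 ∨ r = 13) ∨ (r = 4 ∨ r = 11) ∨ (r = 7 ∨ r = 8) := by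
        intro r hr h1 h2
        interval_cases r <;> simp at h1 h2 ⊢
      obtain ⟨r, hr⟩ : ∃ r : ℕ, (r : ℤ) = D % 15 := ⟨(D % 15).toNat, by omega⟩
      have h3 := key2 r (by omega) (by omega) (by omega)
      clear key key2 g2 g7 g11 h4 H hP e28
      rcases h3 with (h3 | h3) | (h3 | h3) | (h3 | h3) | (h3 | h3) <;> subst h3
      · exact Or.inl (Or.inl (by omega))
      · exact Or.inl (Or.inr (by omega))
      · exact Or.inr (Or.inl (Or.inl (by omega)))
      · exact Or.inr (Or.inl (Or.inr (by omega)))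
      · exact Or.inr (Or.inr (Or.inl (Or.inl (by omega))))
      · exact Or.inr (Or.inr (Or.inl (Or.inr (by omega))))
      · exact Or.inr (Or.inr (Or.inr (Or.inl (by omega))))
      · exact Or.inr (Or.inr (Or.inr (Or.inr (by omega))))
    rcases hc with hc | hc | hc | hc
    · exact key (A0 := 1) (B0 := 0) (by norm_num) H.hV hc
    · exact key (A0 := 8) (B0 := 1) (by norm_num) g2 hc
    · exact key (A0 := 4) (B0 := 1) (by norm_num) h4 hc
    · exact key (A0 := 13) (B0 := 6) (by norm_num) g7 hc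
  have gen2 : ∀ {A B D : ℤ}, A * D - 15 * (B * 2) = 1 →
      ((30 : ℤ) ∣ D - 11 ∨ (30 : ℤ) ∣ D + 11) → φ A B 2 D = 0 := by
    intro A B D h hD
    rcases hD with h2 | h2
    · rw [H.modD (by norm_num) (by norm_num : (11 : ℤ) * 11 - 15 * (4 * 2) = 1) h
        (by norm_num; exact h2), g11]
    · have h3 := H.ref (by norm_num : (11 : ℤ) * 11 - 15 * (4 * 2) = 1)
      rw [H.modD (by norm_num) (by norm_num : (-11 : ℤ) * (-11) - 15 * (4 * 2) = 1) h
        (by norm_num; exact h2), h3, g11, neg_zero]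
  intro a b c d h
  have e15 : (15 : ℤ) = ((3 : ℕ) : ℤ) * ((5 : ℕ) : ℤ) := by norm_num
  refine zero_of (p := 3) (q := 5) Nat.prime_three (by norm_num) (by norm_num) (by norm_num)
    (φ := φ) (by rw [← e15]; exact H) (fun {A B D} h => gen1 (by rw [e15]; exact h)) ?_ d.natAbs
    a b c d (by rw [← e15]; exact h) rfl
  rintro A B D h ⟨t, rfl, ht⟩
  refine gen2 (by rw [e15]; exact h) ?_
  push_cast at ht
  omega

end OddHom

end Pool.Agent.N974.GN
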