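import Pool.Agent.N975.S17.Hom
import Pool.Agent.N974.GN.EvenH

/-!
# The counting cocycles of invariant weights on the forms of a discriminant `D`, any level

The forms may vanish at cusps which are not equivalent to infinity.
-/

set_option autoImplicit false

namespace Pool.Agent.N974.GN

open Pool.Agent.N975.Sym (ev act act_inv eqv ev_act ev10)
open Pool.Agent.N975.S17 (sign_cases fin_eqv sum_eqv finsum_family finite_family ev_neg_neg ev01)

noncomputable section

/-- an invariant weight on the forms of discriminant `D`, level `N`, not vanishing at infinity -/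
structure Wt (N D : ℤ) (k : ℤ × ℤ × ℤ → ℤ) : Prop where
  ne : D ≠ 0
  disc : ∀ q, k q ≠ 0 → q.2.1 ^ 2 - 4 * q.1 * q.2.2 = D
  inv : ∀ {a b c d : ℤ}, a * d - b * (N * c) = 1 → ∀ q, k (act a b (N * c) d q) = k q
  ninf : ∀ q, q.1 = 0 → k q = 0

/-- the parity of a weight -/
def Par (k : ℤ × ℤ × ℤ → ℤ) (ε : ℤ) : Prop := ∀ A B C, k (-A, B, -C) = ε * k (A, B, C)

variable {N D : ℤ} {k : ℤ × ℤ × ℤ → ℤ}

open Classical in
/-- the difference of the signs at two points if no sign vanishes -/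
def U (k : ℤ × ℤ × ℤ → ℤ) (x m y n : ℤ) (q : ℤ × ℤ × ℤ) : ℤ :=
  if ev q x m ≠ 0 ∧ ev q y n ≠ 0 then k q * (Int.sign (ev q x m) - Int.sign (ev q y n)) else 0

open Classical in
/-- the difference of the signs for the forms vanishing at a cusp -/
def Z (k : ℤ × ℤ × ℤ → ℤ) (x₀ m₀ x m : ℤ) (q : ℤ × ℤ × ℤ) : ℤ :=
  if ev q x₀ m₀ = 0 then k q * (Int.sign (ev q x m) - Int.sign (ev q 1 0)) else 0

/-- the sum of the differences of the signs between infinity and `x / m` -/
def X (k : ℤ × ℤ × ℤ → ℤ) (x m : ℤ) : ℤ := ∑ᶠ q, U k 1 0 x m q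

theorem key {q : ℤ × ℤ × ℤ} (h : q.2.1 ^ 2 - 4 * q.1 * q.2.2 = D) (x m : ℤ) :
    4 * (q.1 * ev q x m) = (2 * q.1 * x + q.2.1 * m) ^ 2 - D * m ^ 2 := by
  unfold ev
  linear_combination -(m ^ 2) * h

theorem U_ne {x m : ℤ} {q : ℤ × ℤ × ℤ} (h : U k 1 0 x m q ≠ 0) :
    k q ≠ 0 ∧ q.1 * ev q x m < 0 := by
  unfold U at h
  by_cases hq : ev q 1 0 ≠ 0 ∧ ev q x m ≠ 0
  · rw [if_pos hq, ev10] at h
    refine ⟨fun h0 => h (by rw [h0, zero_mul]), ?_⟩
    have h1 : Int.sign (ev q x m) ≠ Int.sign q.1 := by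
      intro h2
      apply h
      rw [h2, sub_self, mul_zero]
    have h2 := hq.1
    rw [ev10] at h2
    have h3 := hq.2
    rcases lt_or_gt_of_ne h2 with h4 | h4
    · rcases lt_or_gt_of_ne h3 with h5 | h5
      · exact absurd (by rw [Int.sign_eq_neg_one_of_neg h4, Int.sign_eq_neg_one_of_neg h5]) h1
      · exact mul_neg_of_neg_of_pos h4 h5
    · rcases lt_or_gt_of_ne h3 with h5 | h5
      · exact mul_neg_of_pos_of_neg h4 h5
      · exact absurd (by rw [Int.sign_eq_one_of_pos h4, Int.sign_eq_one_of_pos h5]) h1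
  · rw [if_neg hq] at h
    exact absurd rfl h

theorem U_m_zero (x : ℤ) (q : ℤ × ℤ × ℤ) : U k 1 0 x 0 q = 0 := by
  unfold U
  have e1 : ev q x 0 = q.1 * x ^ 2 := by unfold ev; ring
  rw [ev10, e1]
  by_cases h : q.1 ≠ 0 ∧ q.1 * x ^ 2 ≠ 0
  · rw [if_pos h]
    have hx : x ≠ 0 := by
      rintro rfl
      exact h.2 (by ring)
    have h1 : Int.sign (q.1 * x ^ 2) = Int.sign q.1 := by
      rw [Int.sign_mul, Int.sign_eq_one_of_pos (a := x ^ 2) (by positivity), mul_one]
    rw [h1, sub_self, mul_zero]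
  · rw [if_neg h]

theorem U_fin (H : Wt N D k) (x m : ℤ) : (Function.support (U k 1 0 x m)).Finite := by
  rcases eq_or_ne m 0 with rfl | hm
  · have : Function.support (U k 1 0 x 0) = ∅ := by
      rw [Set.eq_empty_iff_forall_notMem]
      intro q hq
      exact hq (U_m_zero x q)
    rw [this]
    exact Set.finite_empty
  set K : ℤ := |D| * m ^ 2 with hK
  set L : ℤ := |D| * m ^ 2 + 2 * K * |x| with hL
  set R : ℤ := L ^ 2 + |D| with hR
  have hD0 : D ≠ 0 := H.ne
  have hD1 : 1 ≤ |D| := Int.one_le_abs hD0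
  have hm2 : 0 < m ^ 2 := by positivity
  refine ((Set.finite_Icc (-K) K).prod ((Set.finite_Icc (-L) L).prod
    (Set.finite_Icc (-R) R))).subset ?_
  intro q hq
  obtain ⟨h0, h1⟩ := U_ne hq
  have hdisc := H.disc q h0
  have hk := key hdisc x m
  have hDle := le_abs_self D
  have hA0 : q.1 ≠ 0 := by
    intro h0
    rw [h0, zero_mul] at h1
    exact lt_irrefl _ h1
  have hev : ev q x m ≠ 0 := by
    intro h5; rw [h5, mul_zero] at h1; exact lt_irrefl _ h1
  have hsq : (2 * q.1 * x + q.2.1 * m) ^ 2 < |D| * m ^ 2 := by nlinarith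
  have hA : |q.1| ≤ K := by
    have h5 : 1 ≤ |ev q x m| := Int.one_le_abs hev
    have h6 : |q.1| * |ev q x m| = -(q.1 * ev q x m) := by
      rw [← abs_mul, abs_of_neg h1]
    have h7 : |q.1| ≤ |q.1| * |ev q x m| := le_mul_of_one_le_right (abs_nonneg _) h5
    have h8 := abs_nonneg q.1
    nlinarith [sq_nonneg (2 * q.1 * x + q.2.1 * m)]
  have hlin : |2 * q.1 * x + q.2.1 * m| ≤ |D| * m ^ 2 := by
    have h5 : |2 * q.1 * x + q.2.1 * m| ^ 2 < |D| * m ^ 2 := by rw [sq_abs]; exact hsq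
    rcases eq_or_lt_of_le (abs_nonneg (2 * q.1 * x + q.2.1 * m)) with h6 | h6
    · rw [← h6]
      positivity
    · nlinarith
  have hM1 : 1 ≤ |m| := Int.one_le_abs hm
  have hB : |q.2.1| ≤ L := by
    have h4 : |q.2.1 * m| ≤ |2 * q.1 * x + q.2.1 * m| + |2 * q.1 * x| := by
      have h5 : q.2.1 * m = (2 * q.1 * x + q.2.1 * m) - 2 * q.1 * x := by ring
      calc |q.2.1 * m| = |(2 * q.1 * x + q.2.1 * m) - 2 * q.1 * x| := by rw [← h5]
        _ ≤ _ := abs_sub _ _
    have h6 : |2 * q.1 * x| ≤ 2 * K * |x| := by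
      rw [abs_mul, abs_mul]
      have : |(2:ℤ)| = 2 := rfl
      rw [this]
      have := abs_nonneg x
      nlinarith
    have h7 : |q.2.1| ≤ |q.2.1 * m| := by
      rw [abs_mul]
      exact le_mul_of_one_le_right (abs_nonneg _) hM1
    rw [hL]
    linarith
  have hC : |q.2.2| ≤ R := by
    have h4 : 4 * (q.1 * q.2.2) = q.2.1 ^ 2 - D := by linarith
    have h5 : 4 * (|q.1| * |q.2.2|) ≤ q.2.1 ^ 2 + |D| := by
      rw [← abs_mul]
      have h9 := neg_abs_le D
      rcases abs_cases (q.1 * q.2.2) with ⟨h6, _⟩ | ⟨h6, _⟩ <;> rw [h6] <;>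
        nlinarith [sq_nonneg q.2.1]
    have h6 : q.2.1 ^ 2 ≤ L ^ 2 := by
      rw [← sq_abs q.2.1]
      exact pow_le_pow_left₀ (abs_nonneg _) hB 2
    have h7 : 1 ≤ |q.1| := Int.one_le_abs hA0
    have h8 : |q.2.2| ≤ |q.1| * |q.2.2| := le_mul_of_one_le_left (abs_nonneg _) h7
    have h9 := abs_nonneg q.2.2
    rw [hR]
    linarith
  refine ⟨?_, ?_, ?_⟩
  · exact abs_le.1 hA
  · exact abs_le.1 hB
  · exact abs_le.1 hC

/-- the termwise identity -/
theorem U_id (H : Wt N D k) {a b c d : ℤ} (h : a * d - b * (N * c) = 1) (x m : ℤ)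
    (q : ℤ × ℤ × ℤ) :
    U k 1 0 (a * x + b * m) (N * c * x + d * m) q =
      U k 1 0 a (N * c) q + U k 1 0 x m (eqv a b (N * c) d h q) -
      Z k x m d (-(N * c)) (eqv a b (N * c) d h q) := by
  show U k 1 0 (a * x + b * m) (N * c * x + d * m) q =
      U k 1 0 a (N * c) q + U k 1 0 x m (act a b (N * c) d q) -
      Z k x m d (-(N * c)) (act a b (N * c) d q)
  have hk := H.inv h q
  have e1 : ev (act a b (N * c) d q) x m = ev q (a * x + b * m) (N * c * x + d * m) := by
    rw [ev_act]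
  have e2 : ev (act a b (N * c) d q) 1 0 = ev q a (N * c) := by
    rw [ev_act, mul_one, mul_one, mul_zero, mul_zero, add_zero, add_zero]
  have e4 : ev (act a b (N * c) d q) d (-(N * c)) = ev q 1 0 := by
    rw [ev_act]
    congr 1
    · linear_combination h
    · ring
  unfold U Z
  rw [e1, e2, e4, hk]
  by_cases h0 : k q = 0
  · rw [h0]
    simp
  · have n1 : ev q 1 0 ≠ 0 := by
      rw [ev10]
      exact fun h1 => h0 (H.ninf q h1)
    have n2 : ev q a (N * c) ≠ 0 := by
      rw [← e2, ev10]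
      intro h1
      apply h0
      rw [← hk]
      exact H.ninf _ h1
    by_cases h1 : ev q (a * x + b * m) (N * c * x + d * m) = 0
    · rw [if_neg (fun h2 => h2.2 h1), if_pos ⟨n1, n2⟩, if_neg (fun h2 => h2.2 h1), if_pos h1]
      ring
    · rw [if_pos ⟨n1, h1⟩, if_pos ⟨n1, n2⟩, if_pos ⟨n2, h1⟩, if_neg h1]
      ring

/-- the forms vanishing at `x / m` and separating two images of infinity are finite in number -/
theorem Z_fin (H : Wt N D k) {a b c d : ℤ} (h : a * d - b * (N * c) = 1) (x m : ℤ) :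
    (Function.support (Z k x m d (-(N * c)))).Finite := by
  have f0 := U_fin H (a * x + b * m) (N * c * x + d * m)
  have f1 := U_fin H a (N * c)
  have f2 := fin_eqv (U_fin H x m) (eqv a b (N * c) d h)
  have g1 : (Function.support fun q => U k 1 0 a (N * c) q +
      U k 1 0 x m (eqv a b (N * c) d h q)).Finite :=
    (f1.union f2).subset (Function.support_add _ _)
  have f3 : (Function.support fun q => Z k x m d (-(N * c)) (eqv a b (N * c) d h q)).Finite := by
    refine (g1.union f0).subset ?_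
    have h1 : (fun q => Z k x m d (-(N * c)) (eqv a b (N * c) d h q)) =
        fun q => (U k 1 0 a (N * c) q + U k 1 0 x m (eqv a b (N * c) d h q)) -
          U k 1 0 (a * x + b * m) (N * c * x + d * m) q := by
      funext q
      rw [U_id H h x m q]
      ring
    rw [h1]
    exact Function.support_sub _ _
  refine (f3.image (eqv a b (N * c) d h)).subset ?_
  intro q hq
  exact ⟨(eqv a b (N * c) d h).symm q, by
    simpa only [Function.mem_support, Equiv.apply_symm_apply] using hq, by simp⟩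

/-- the cocycle relation -/
theorem X_coc (H : Wt N D k) {a b c d : ℤ} (h : a * d - b * (N * c) = 1) (x m : ℤ) :
    X k (a * x + b * m) (N * c * x + d * m) =
      X k a (N * c) + X k x m - ∑ᶠ q, Z k x m d (-(N * c)) q := by
  have f0 := U_fin H (a * x + b * m) (N * c * x + d * m)
  have f1 := U_fin H a (N * c)
  have f2 := fin_eqv (U_fin H x m) (eqv a b (N * c) d h)
  have g1 : (Function.support fun q => U k 1 0 a (N * c) q +
      U k 1 0 x m (eqv a b (N * c) d h q)).Finite :=
    (f1.union f2).subset (Function.support_add _ _)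
  have f3 : (Function.support fun q => Z k x m d (-(N * c)) (eqv a b (N * c) d h q)).Finite :=
    fin_eqv (Z_fin H h x m) (eqv a b (N * c) d h)
  unfold X
  rw [finsum_congr (U_id H h x m), finsum_sub_distrib g1 f3, finsum_add_distrib f1 f2,
    sum_eqv, sum_eqv]

/-- no form vanishes at a cusp -/
def NZ (k : ℤ × ℤ × ℤ → ℤ) (x m : ℤ) : Prop := ∀ q, ev q x m = 0 → k q = 0

theorem Z_zero {x₀ m₀ : ℤ} (h : NZ k x₀ m₀) (x m : ℤ) : ∑ᶠ q, Z k x₀ m₀ x m q = 0 := by
  have h1 : ∀ q, Z k x₀ m₀ x m q = 0 := by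
    intro q
    unfold Z
    split_ifs with h2
    · rw [h q h2, zero_mul]
    · rfl
  rw [finsum_congr h1, finsum_zero]

/-- the cocycle relation at a cusp where no form vanishes -/
theorem X_coc0 (H : Wt N D k) {a b c d : ℤ} (h : a * d - b * (N * c) = 1) {x m : ℤ}
    (hz : NZ k x m) : X k (a * x + b * m) (N * c * x + d * m) = X k a (N * c) + X k x m := by
  rw [X_coc H h x m, Z_zero hz, sub_zero]

theorem NZ_inf (H : Wt N D k) {a b c d : ℤ} (h : a * d - b * (N * c) = 1) : NZ k a (N * c) := by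
  intro q hq
  rw [← H.inv h q]
  apply H.ninf
  rw [← ev10, ev_act, mul_one, mul_one, mul_zero, mul_zero, add_zero, add_zero]
  exact hq

/-- the homomorphism property -/
theorem X_hom (H : Wt N D k) {a b c d a' b' c' d' : ℤ} (h : a * d - b * (N * c) = 1)
    (h' : a' * d' - b' * (N * c') = 1) :
    X k (a * a' + b * (N * c')) (N * c * a' + d * (N * c')) =
      X k a (N * c) + X k a' (N * c') :=
  X_coc0 H h (NZ_inf H h')

theorem X_neg_neg (x m : ℤ) : X k (-x) (-m) = X k x m := by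
  unfold X
  apply finsum_congr
  intro q
  unfold U
  rw [ev_neg_neg]

/-- the reflection -/
def refl : (ℤ × ℤ × ℤ) ≃ (ℤ × ℤ × ℤ) where
  toFun q := (-q.1, q.2.1, -q.2.2)
  invFun q := (-q.1, q.2.1, -q.2.2)
  left_inv q := by simp
  right_inv q := by simp

theorem ev_refl (q : ℤ × ℤ × ℤ) (x m : ℤ) : ev (refl q) x m = -ev q (-x) m := by
  obtain ⟨A, B, C⟩ := q
  have hr : refl (A, B, C) = (-A, B, -C) := rfl
  rw [hr]
  unfold ev
  ring

theorem X_neg {ε : ℤ} (hε : ε = 1 ∨ ε = -1) (hp : Par k ε) (x m : ℤ) :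
    X k (-x) m = -ε * X k x m := by
  have hε2 : ε * ε = 1 := by rcases hε with rfl | rfl <;> norm_num
  unfold X
  have h1 : ∀ q, U k 1 0 (-x) m q = -ε * U k 1 0 x m (refl q) := by
    intro q
    have hk : k (refl q) = ε * k q := hp q.1 q.2.1 q.2.2
    unfold U
    have e1 : ev (refl q) x m = -ev q (-x) m := ev_refl q x m
    have e2 : ev (refl q) 1 0 = -ev q 1 0 := by
      rw [ev_refl, ← ev_neg_neg q (-1) 0, neg_neg, neg_zero]
    rw [e1, e2, hk]
    simp only [ne_eq, neg_eq_zero, Int.sign_neg]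
    split_ifs with h
    · linear_combination (-(k q * (Int.sign (ev q 1 0) - Int.sign (ev q (-x) m)))) * hε2
    · ring
  rw [finsum_congr h1]
  have h2 : ∑ᶠ q, -ε * U k 1 0 x m (refl q) = ∑ᶠ q, -ε * U k 1 0 x m q :=
    finsum_comp_equiv refl (f := fun q => -ε * U k 1 0 x m q)
  rw [h2]
  rcases hε with rfl | rfl
  · have h3 : ∀ q, -1 * U k 1 0 x m q = -U k 1 0 x m q := fun q => by ring
    rw [finsum_congr h3, finsum_neg_distrib]
    ring
  · have h3 : ∀ q, -(-1) * U k 1 0 x m q = U k 1 0 x m q := fun q => by ring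
    rw [finsum_congr h3]
    ring

theorem X_neg' {ε : ℤ} (hε : ε = 1 ∨ ε = -1) (hp : Par k ε) (x m : ℤ) :
    X k x (-m) = -ε * X k x m := by
  rw [← X_neg_neg, neg_neg, X_neg hε hp]

theorem X_inf (x : ℤ) : X k x 0 = 0 := by
  unfold X
  rw [finsum_congr (U_m_zero x), finsum_zero]

/-- a parabolic element fixing a cusp where no form vanishes -/
theorem X_par (H : Wt N D k) {a b c d : ℤ} (h : a * d - b * (N * c) = 1) {x m : ℤ}
    (hz : NZ k x m) (h1 : a * x + b * m = x) (h2 : N * c * x + d * m = m) :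
    X k a (N * c) = 0 := by
  have h3 := X_coc0 H h hz
  rw [h1, h2] at h3
  linarith

/-- a parabolic element in general -/
theorem X_par' (H : Wt N D k) {a b c d : ℤ} (h : a * d - b * (N * c) = 1) {x m : ℤ}
    (h1 : a * x + b * m = x) (h2 : N * c * x + d * m = m) :
    X k a (N * c) = ∑ᶠ q, Z k x m d (-(N * c)) q := by
  have h3 := X_coc H h x m
  rw [h1, h2] at h3
  linarith

/-- the even weights give even homomorphisms -/
theorem evenHom (H : Wt N D k) (P : Par k (-1)) :
    EvenHom N (fun a _ c _ : ℤ => X k a (N * c)) where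
  hom := by
    intro a b c d a' b' c' d' h h'
    have h1 := X_hom H (a := a) (b := b) (c := c) (d := d) (a' := a') (b' := b') (c' := c')
      (d' := d') (by linear_combination h) (by linear_combination h')
    have e2 : N * (c * a' + d * c') = N * c * a' + d * (N * c') := by ring
    rw [e2, h1]
  neg := by
    intro a b c d _
    have e2 : N * -c = -(N * c) := by ring
    rw [e2, X_neg_neg]
  even := by
    intro a b c d _
    have e2 : N * -c = -(N * c) := by ring
    rw [e2, X_neg' (Or.inr rfl) P]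
    ring

end

end Pool.Agent.N974.GN
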